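import Pool.Agent.Lib.MP_e6f638_al.Stmts

/-!
# Tits alternative for even Artin groups: closure properties of the class `TA`
-/

set_option autoImplicit false

namespace Pool.Agent.Lib.MP_e6f638_al

section

variable {G K : Type*} [Group G] [Group K]

/-- Free subgroups lift. -/
theorem hasF2_of_map (f : G →* K) {H : Subgroup G} (h : HasF2 (H.map f)) : HasF2 H := by
  obtain ⟨φ, hφ, hr⟩ := h
  have h1 : ∀ i : Fin 2, ∃ g ∈ H, f g = φ (FreeGroup.of i) := fun i =>
    Subgroup.mem_map.1 (hr ⟨FreeGroup.of i, rfl⟩)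
  choose g hg hfg using h1
  have h2 : f.comp (FreeGroup.lift g) = φ := by
    ext i
    rw [MonoidHom.comp_apply, FreeGroup.lift_apply_of, hfg]
  refine ⟨FreeGroup.lift g, ?_, ?_⟩
  · intro x y hxy
    apply hφ
    rw [← h2, MonoidHom.comp_apply, MonoidHom.comp_apply, hxy]
  · rw [FreeGroup.range_lift_eq_closure, Subgroup.closure_le]
    rintro _ ⟨i, rfl⟩
    exact hg i

/-- Free subgroups of a subgroup. -/
theorem HasF2.map {H : Subgroup G} (h : HasF2 H) (f : G →* K) (hf : Function.Injective f) :
    HasF2 (H.map f) := by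
  obtain ⟨φ, hφ, hr⟩ := h
  refine ⟨f.comp φ, hf.comp hφ, ?_⟩
  rintro _ ⟨x, rfl⟩
  exact ⟨φ x, hr ⟨x, rfl⟩, rfl⟩

theorem HasF2.mono {H H' : Subgroup G} (h : HasF2 H) (hH : H ≤ H') : HasF2 H' := by
  obtain ⟨φ, hφ, hr⟩ := h
  exact ⟨φ, hφ, hr.trans hH⟩

theorem derived_of_inj (f : G →* K) (hf : Function.Injective f) {n : ℕ}
    (h : derivedSeries K n = ⊥) : derivedSeries G n = ⊥ := by
  have h1 := map_derivedSeries_le_derivedSeries f n
  rw [h, le_bot_iff] at h1
  exact (Subgroup.map_eq_bot_iff_of_injective _ hf).1 h1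

theorem derived_map_mono {P P' : Subgroup G} (h : P ≤ P') (n : ℕ) :
    (derivedSeries P n).map P.subtype ≤ (derivedSeries P' n).map P'.subtype := by
  have h1 := map_derivedSeries_le_derivedSeries (Subgroup.inclusion h) n
  have h2 := Subgroup.map_mono (f := P'.subtype) h1
  rw [Subgroup.map_map] at h2
  exact h2

/-- The derived series of a subgroup which contains the `k`-th derived group. -/
theorem derived_add {P : Subgroup G} {k : ℕ} (h : derivedSeries G k ≤ P) :
    ∀ n, derivedSeries G (k + n) ≤ (derivedSeries P n).map P.subtype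
  | 0 => by
    change derivedSeries G k ≤ (⊤ : Subgroup P).map P.subtype
    rw [← MonoidHom.range_eq_map, Subgroup.range_subtype]
    exact h
  | n + 1 => by
    change ⁅derivedSeries G (k + n), derivedSeries G (k + n)⁆ ≤
      (⁅derivedSeries P n, derivedSeries P n⁆ : Subgroup P).map P.subtype
    rw [Subgroup.map_commutator]
    exact Subgroup.commutator_mono (derived_add h n) (derived_add h n)

theorem derived_add_bot {P : Subgroup G} {k n : ℕ} (h : derivedSeries G k ≤ P)
    (hn : derivedSeries P n = ⊥) : derivedSeries G (k + n) = ⊥ := by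
  have h1 := derived_add h n
  rwa [hn, Subgroup.map_bot, le_bot_iff] at h1

theorem TA.of_inj {d : ℕ} (f : G →* K) (hf : Function.Injective f) (h : TA d K) : TA d G := by
  intro H hH
  have h1 : derivedSeries (H.map f) d = ⊥ := h _ fun h2 => hH (hasF2_of_map f h2)
  exact derived_of_inj (f.subgroupMap H) (fun x y hxy =>
    Subtype.ext (hf (congrArg Subtype.val hxy))) h1

theorem TA.mono {d e : ℕ} (hde : d ≤ e) (h : TA d G) : TA e G := fun H hH =>
  le_bot_iff.1 ((derivedSeries_antitone H hde).trans (h H hH).le)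

/-- Extensions. -/
theorem TA.ext (f : G →* K) {d e : ℕ} (h : TA d f.ker) (h' : TA e K) : TA (e + d) G := by
  intro H hH
  have h1 : derivedSeries (H.map f) e = ⊥ := h' _ fun h2 => hH (hasF2_of_map f h2)
  have h2 : derivedSeries (H.subgroupOf f.ker) d = ⊥ := by
    refine h _ fun h3 => hH ?_
    have h4 := h3.map f.ker.subtype Subtype.val_injective
    refine h4.mono ?_
    rintro _ ⟨x, hx, rfl⟩
    exact hx
  have h3 : derivedSeries H e ≤ f.ker.subgroupOf H := by
    have h4 := map_derivedSeries_le_derivedSeries (f.subgroupMap H) e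
    rw [h1, le_bot_iff] at h4
    intro x hx
    have h5 : f.subgroupMap H x = 1 := by
      have h6 : f.subgroupMap H x ∈ (derivedSeries H e).map (f.subgroupMap H) := ⟨x, hx, rfl⟩
      rw [h4] at h6
      exact h6
    exact congrArg Subtype.val h5
  refine derived_add_bot h3 ?_
  let j : f.ker.subgroupOf H →* H.subgroupOf f.ker :=
    { toFun := fun x => ⟨⟨(x : H), x.2⟩, (x : H).2⟩
      map_one' := rfl
      map_mul' := fun _ _ => rfl }
  refine derived_of_inj j (fun x y hxy => ?_) h2
  exact Subtype.ext (Subtype.ext (congrArg (fun z : H.subgroupOf f.ker => ((z : f.ker) : G)) hxy))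

/-- Being solvable of derived length at most `n` is a local property. -/
theorem derived_local_mem : ∀ (n : ℕ) (g : G), g ∈ derivedSeries G n →
    ∃ P : Subgroup G, P.FG ∧ g ∈ (derivedSeries P n).map P.subtype
  | 0, g, _ => by
    refine ⟨Subgroup.closure {g}, ⟨{g}, by rw [Finset.coe_singleton]⟩, ?_⟩
    change g ∈ (⊤ : Subgroup (Subgroup.closure {g})).map (Subgroup.closure {g}).subtype
    rw [← MonoidHom.range_eq_map, Subgroup.range_subtype]
    exact Subgroup.subset_closure rfl
  | n + 1, g, hg => by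
    let S : Subgroup G :=
      { carrier := {g | ∃ P : Subgroup G, P.FG ∧ g ∈ (derivedSeries P (n + 1)).map P.subtype}
        one_mem' := ⟨⊥, ⟨∅, by rw [Finset.coe_empty, Subgroup.closure_empty]⟩, Subgroup.one_mem _⟩
        mul_mem' := by
          rintro a b ⟨P, hP, ha⟩ ⟨P', hP', hb⟩
          exact ⟨P ⊔ P', hP.sup hP', Subgroup.mul_mem _ (derived_map_mono le_sup_left _ ha)
            (derived_map_mono le_sup_right _ hb)⟩
        inv_mem' := by
          rintro a ⟨P, hP, ha⟩
          exact ⟨P, hP, Subgroup.inv_mem _ ha⟩ }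
    have h1 : derivedSeries G (n + 1) ≤ S := by
      change ⁅derivedSeries G n, derivedSeries G n⁆ ≤ S
      rw [Subgroup.commutator_le]
      intro a ha b hb
      obtain ⟨P, hP, ha⟩ := derived_local_mem n a ha
      obtain ⟨P', hP', hb⟩ := derived_local_mem n b hb
      refine ⟨P ⊔ P', hP.sup hP', ?_⟩
      have h2 := Subgroup.commutator_mem_commutator
        (derived_map_mono (le_sup_left : P ≤ P ⊔ P') _ ha)
        (derived_map_mono (le_sup_right : P' ≤ P ⊔ P') _ hb)
      rw [← Subgroup.map_commutator] at h2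
      exact h2
    exact h1 hg

theorem derived_local {d : ℕ} (h : ∀ P : Subgroup G, P.FG → derivedSeries P d = ⊥) :
    derivedSeries G d = ⊥ := by
  rw [eq_bot_iff]
  intro g hg
  obtain ⟨P, hP, hgP⟩ := derived_local_mem d g hg
  rw [h P hP, Subgroup.map_bot] at hgP
  exact hgP

theorem TA.local {d : ℕ} (h : ∀ P : Subgroup G, P.FG → TA d P) : TA d G := by
  intro H hH
  refine derived_local fun P hP => ?_
  have h1 : (P.map H.subtype).FG := by
    classical
    obtain ⟨s, hs⟩ := hP
    refine ⟨s.image H.subtype, ?_⟩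
    rw [Finset.coe_image, ← MonoidHom.map_closure, hs]
  have h2 := h _ h1 ⊤ fun h3 => hH ?_
  · refine derived_of_inj (K := (⊤ : Subgroup (P.map H.subtype)))
      ((Subgroup.topEquiv.symm.toMonoidHom).comp (H.subtype.subgroupMap P)) ?_ h2
    intro x y hxy
    have h4 : H.subtype.subgroupMap P x = H.subtype.subgroupMap P y := congrArg Subtype.val hxy
    exact Subtype.ext (Subtype.ext (congrArg (fun z : P.map H.subtype => (z : G)) h4))
  · have h4 := h3.map (P.map H.subtype).subtype Subtype.val_injective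
    refine h4.mono ?_
    rintro _ ⟨⟨x, y, _, rfl⟩, _, rfl⟩
    exact y.2

theorem TA.comm {A : Type*} [CommGroup A] : TA 1 A := by
  intro H _
  rw [derivedSeries_one, commutator_eq_bot_iff_center_eq_top]
  exact (Subgroup.eq_top_iff' _).2 fun x => Subgroup.mem_center_iff.2 fun y => mul_comm y x

end

/-- Module A. -/
theorem stA : StA := by
  refine ⟨fun G K _ _ f d hf h => h.of_inj f hf, fun G _ d e hde h => h.mono hde,
    fun G K _ _ f d h => ?_, fun G _ d h => derived_local h, fun G _ hG H _ => ?_⟩
  · have h1 := TA.ext f h TA.comm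
    rwa [add_comm] at h1
  · exact Subsingleton.elim _ _

end Pool.Agent.Lib.MP_e6f638_al
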