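import Pool.Agent.Lib.MP_e6f638_al.Stmts
import Pool.Agent.Lib.TreeTits.Axis

/-!
# Tits alternative for even Artin groups: module B1 (axes)
-/

set_option autoImplicit false

namespace Pool.Agent.Lib.MP_e6f638_al

/-- Module B1. -/
theorem stB1 : StB1 := by
  intro G _ V _ T hA g hg
  obtain ⟨γ, m, hm, h1, h2⟩ := TreeTits.exists_axis hA.tree hA.adj g (hA.inv g) hg
  exact ⟨γ, m, by exact_mod_cast hm, h1, h2⟩

end Pool.Agent.Lib.MP_e6f638_al
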