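import Pool.Agent.Lib.MP_e6f638_al.C
import Pool.Agent.Lib.TreeTits.Four

/-!
# Tits alternative for even Artin groups: module B2 (common fixed vertices)
-/

set_option autoImplicit false

namespace Pool.Agent.Lib.MP_e6f638_al

namespace B2

open Pool.Agent.Lib.TreeTits (loc four)
open Pool.Agent.Lib.MP_551055_al.LS (tree_exists_pred)

theorem serre_key {Γ : Type} [Group Γ] {V : Type} [MulAction Γ V]
    {T : SimpleGraph V} (hT : MP_e6f638_al.TreeAct Γ V T) {a b : Γ} {p q p' q' v : V} {m : ℕ}
    (hp : a • p = p) (hq : b • q = q) (hpq : T.dist p q = m + 1)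
    (hp1 : T.Adj p' p) (hp2 : T.dist p' q = m) (hp3 : a • p' ≠ p')
    (hq1 : T.Adj q' q) (hq2 : T.dist p q' = m) (hq3 : b • q' ≠ q')
    (hv : (a * b) • v = v) : False := by
  have hd : ∀ (g : Γ) (x y : V), T.dist (g • x) (g • y) = T.dist x y :=
    fun g x y => MP_e6f638_al.TreeAct.dist hT g x y
  have hc := hT.tree.connected
  have e1 : T.dist q p = m + 1 := by rw [T.dist_comm, hpq]
  have e2 : T.dist (a • q) p = m + 1 := by
    have h := hd a q p
    rw [hp, e1] at h
    exact h
  have e3 : T.dist (a • q) (a • p') = m := by rw [hd, T.dist_comm, hp2]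
  have e4 : T.dist q (a • q) = (m + 1) + (m + 1) := by
    have h := loc hT.tree (x := q) (y := p) (z := a • q) hp1
      (by have h := hT.adj a _ _ hp1; rwa [hp] at h) (fun h => hp3 h.symm)
      (by rw [e1, T.dist_comm, hp2]) (by rw [e2, e3])
    rw [h, e1, T.dist_comm, e2]
  -- distances for the second application
  have hadj1 : T.Adj (a • q') (a • q) := hT.adj a _ _ hq1
  have hadj2 : T.Adj (a • b • q') (a • q) := by
    have h := hT.adj a _ _ (hT.adj b _ _ hq1)
    rwa [hq] at h
  have f1 : T.dist p (a • q') = m := by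
    have h := hd a p q'
    rw [hp, hq2] at h
    exact h
  have f2 : T.dist q (a • q') = 2 * m + 1 := by
    have h1 := hc.dist_triangle (u := q) (v := p) (w := a • q')
    have h2 := hc.dist_triangle (u := q) (v := a • q') (w := a • q)
    have h3 : T.dist (a • q') (a • q) = 1 := T.dist_eq_one_iff_adj.2 hadj1
    omega
  have f3 : T.dist (a • q) q' = 2 * m + 1 := by
    have h1 := hc.dist_triangle (u := a • q) (v := p) (w := q')
    have h2 := hc.dist_triangle (u := a • q) (v := q') (w := q)
    have h3 : T.dist q' q = 1 := T.dist_eq_one_iff_adj.2 hq1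
    have h4 : T.dist (a • q) q = T.dist q (a • q) := T.dist_comm
    omega
  have f4 : T.dist (a • b • a • q) (a • q) = 2 * m + 2 := by
    have h := hd a (b • a • q) q
    rw [h]
    have h' := hd b (a • q) q
    rw [hq] at h'
    rw [h', T.dist_comm, e4]
    omega
  have f5 : T.dist (a • b • a • q) (a • b • q') = 2 * m + 1 := by
    rw [hd, hd, f3]
  have f6 : T.dist q (a • b • a • q) = 4 * m + 4 := by
    have h := loc hT.tree (x := q) (y := a • q) (z := a • b • a • q) hadj1 hadj2
      (fun h => hq3 (smul_left_cancel a h).symm) (by rw [e4, f2]; omega) (by rw [f4, f5])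
    rw [h, e4, T.dist_comm, f4]
    omega
  -- the fixed vertex
  have hv' : a • b • v = v := by rw [← mul_smul]; exact hv
  have g1 : T.dist v (a • q) = T.dist v q := by
    have h := hd a (b • v) q
    rw [hv'] at h
    have h' := hd b v q
    rw [hq] at h'
    rw [h, h']
  have g2 : T.dist (a • b • a • q) v = T.dist v q := by
    have h := hd a (b • a • q) (b • v)
    rw [hv', hd] at h
    rw [h, T.dist_comm, g1]
  have g3 := four hT.tree _ q (a • b • a • q) v (a • q) rfl
  have g4 : T.dist q v = T.dist v q := T.dist_comm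
  rw [f6, g1, g2, f4, e4, g4] at g3
  have g5 : max (T.dist v q + (2 * m + 2)) (m + 1 + (m + 1) + T.dist v q) =
      T.dist v q + (2 * m + 2) := by
    rw [max_eq_left]
    omega
  rw [g5] at g3
  omega

theorem serre_fin {Γ : Type} [Group Γ] {V : Type} [MulAction Γ V]
    {T : SimpleGraph V} (hT : MP_e6f638_al.TreeAct Γ V T) (hfix : ∀ g : Γ, ∃ v : V, g • v = v)
    (s : Finset Γ) : ∃ v : V, ∀ g ∈ s, g • v = v := by
  classical
  induction s using Finset.induction_on with
  | empty =>
    obtain ⟨v, -⟩ := hfix 1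
    exact ⟨v, by simp⟩
  | insert s0 s _ ih =>
    -- minimal distance
    let P : ℕ → Prop := fun n => ∃ p q : V, (∀ g ∈ s, g • p = p) ∧ s0 • q = q ∧ T.dist p q = n
    have hP : ∃ n, P n := by
      obtain ⟨p, hp⟩ := ih
      obtain ⟨q, hq⟩ := hfix s0
      exact ⟨T.dist p q, p, q, hp, hq, rfl⟩
    obtain ⟨p, q, hp, hq, hpq⟩ := Nat.find_spec hP
    have hmin : ∀ m, m < Nat.find hP → ¬ P m := fun m hm => Nat.find_min hP hm
    generalize Nat.find hP = n at hpq hmin
    rcases Nat.eq_zero_or_pos n with hn | hn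
    · subst hn
      have hpq' : p = q := (hT.tree.connected.dist_eq_zero_iff).1 hpq
      subst hpq'
      refine ⟨p, fun g hg => ?_⟩
      rcases Finset.mem_insert.1 hg with rfl | hg
      · exact hq
      · exact hp g hg
    · exfalso
      obtain ⟨m, rfl⟩ : ∃ m, n = m + 1 := ⟨n - 1, by omega⟩
      obtain ⟨q', hq1, hq2⟩ := tree_exists_pred hT.tree hpq
      obtain ⟨p', hp1, hp2⟩ := tree_exists_pred hT.tree (T.dist_comm.trans hpq : T.dist q p = m + 1)
      have hq3 : s0 • q' ≠ q' := fun h => hmin m (Nat.lt_succ_self m) ⟨p, q', hp, h, hq2⟩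
      have hp3 : ∃ a ∈ s, a • p' ≠ p' := by
        by_contra h
        push Not at h
        exact hmin m (Nat.lt_succ_self m) ⟨p', q, h, hq, by rw [T.dist_comm, hp2]⟩
      obtain ⟨a, ha, hp3⟩ := hp3
      obtain ⟨v, hv⟩ := hfix (a * s0)
      exact serre_key hT (hp a ha) hq hpq hp1 (by rw [T.dist_comm, hp2]) hp3 hq1 hq2 hq3 hv

end B2

/-- Module B2. -/
theorem stB2 : StB2 := by
  intro G _ V _ T hT hfix hfg
  obtain ⟨s, hs⟩ := hfg.out
  obtain ⟨v, hv⟩ := B2.serre_fin hT hfix s
  refine ⟨v, fun g => ?_⟩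
  have h1 : Subgroup.closure (s : Set G) ≤ MulAction.stabilizer G v := by
    rw [Subgroup.closure_le]
    intro a ha
    exact hv a ha
  have h2 : g ∈ Subgroup.closure (s : Set G) := by
    rw [hs]
    exact Subgroup.mem_top g
  exact h1 h2

end Pool.Agent.Lib.MP_e6f638_al
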