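import Pool.Agent.Lib.MP_e6f638_al.Stmts

/-!
# Tits alternative for even Artin groups: module C (two lines in a tree, ping-pong)
-/

set_option autoImplicit false

namespace Pool.Agent.Lib.MP_e6f638_al

/-! ## Distances in trees -/

section

variable {V : Type} {T : SimpleGraph V}

theorem c_pred (hT : T.IsTree) {w v x y : V} (hx : T.Adj x v) (hy : T.Adj y v)
    (h1 : T.dist w v = T.dist w x + 1) (h2 : T.dist w v = T.dist w y + 1) : x = y := by
  classical
  obtain ⟨p, hp, hpl⟩ := hT.connected.exists_path_of_dist w x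
  obtain ⟨q, hq, hql⟩ := hT.connected.exists_path_of_dist w y
  have hp' : v ∉ p.support := fun hv => by
    have h3 := SimpleGraph.dist_le (p.takeUntil v hv)
    have h4 := p.length_takeUntil_le_length hv
    omega
  have hq' : v ∉ q.support := fun hv => by
    have h3 := SimpleGraph.dist_le (q.takeUntil v hv)
    have h4 := q.length_takeUntil_le_length hv
    omega
  have h5 : (⟨p.concat hx, hp.concat hp' hx⟩ : T.Path w v) = ⟨q.concat hy, hq.concat hq' hy⟩ :=
    (hT.isAcyclic.subsingleton_path w v).elim _ _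
  have h6 : p.concat hx = q.concat hy := congrArg Subtype.val h5
  have h7 := congrArg SimpleGraph.Walk.penultimate h6
  rw [SimpleGraph.Walk.penultimate_concat, SimpleGraph.Walk.penultimate_concat] at h7
  exact h7

theorem c_step (hT : T.IsTree) {x y : V} {n : ℕ} (h : T.dist x y = n + 1) :
    ∃ x', T.Adj x x' ∧ T.dist x' y = n := by
  obtain ⟨p, hp⟩ := hT.connected.exists_walk_length_eq_dist x y
  cases p with
  | nil => rw [SimpleGraph.Walk.length_nil] at hp; omega
  | cons hadj q =>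
    rename_i x'
    refine ⟨x', hadj, ?_⟩
    rw [SimpleGraph.Walk.length_cons] at hp
    have h1 := SimpleGraph.dist_le q
    have h2 := hT.connected.dist_triangle (u := x) (v := x') (w := y)
    have h3 : T.dist x x' = 1 := SimpleGraph.dist_eq_one_iff_adj.2 hadj
    omega

theorem c_uniq (hT : T.IsTree) {w : V} : ∀ (n : ℕ) (x u u' : V), T.dist u x = n →
    T.dist u' x = n → T.dist w u + n = T.dist w x → T.dist w u' + n = T.dist w x → u = u' := by
  intro n
  induction n with
  | zero =>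
    intro x u u' h1 h2 _ _
    rw [hT.connected.dist_eq_zero_iff] at h1 h2
    rw [h1, h2]
  | succ n ih =>
    intro x u u' h1 h2 h3 h4
    rw [SimpleGraph.dist_comm] at h1 h2
    obtain ⟨x1, ha1, hd1⟩ := c_step hT h1
    obtain ⟨x2, ha2, hd2⟩ := c_step hT h2
    have t1 := hT.connected.dist_triangle (u := w) (v := u) (w := x1)
    have t2 := hT.connected.dist_triangle (u := w) (v := u') (w := x2)
    rw [SimpleGraph.dist_comm] at hd1 hd2
    have e1 := hT.dist_eq_dist_add_one_of_adj w ha1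
    have e2 := hT.dist_eq_dist_add_one_of_adj w ha2
    have h5 : x1 = x2 := c_pred hT ha1.symm ha2.symm (w := w) (by omega) (by omega)
    subst h5
    exact ih x1 u u' hd1 hd2 (by omega) (by omega)

theorem c_anc (hT : T.IsTree) {w : V} (t : ℕ) : ∀ (n : ℕ) (x y u v : V), T.dist x y = n →
    T.dist w u = t → T.dist w v = t → T.dist u x + t = T.dist w x →
    T.dist v y + t = T.dist w y → 2 * t + n ≤ T.dist w x + T.dist w y → u = v := by
  intro n
  induction n with
  | zero =>
    intro x y u v h0 h1 h2 h3 h4 _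
    rw [hT.connected.dist_eq_zero_iff] at h0
    subst h0
    exact c_uniq hT (w := w) (T.dist u x) x u v rfl (by omega) (by omega) (by omega)
  | succ n ih =>
    intro x y u v h0 h1 h2 h3 h4 h5
    obtain ⟨x', ha, hd⟩ := c_step hT h0
    have e := hT.dist_eq_dist_add_one_of_adj w ha
    have hxx : T.dist x x' = 1 := SimpleGraph.dist_eq_one_iff_adj.2 ha
    have t1 := hT.connected.dist_triangle (u := w) (v := u) (w := x')
    have t2 := hT.connected.dist_triangle (u := u) (v := x) (w := x')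
    rcases e with e | e
    · -- the neighbour is closer to `w`
      have t3 := hT.connected.dist_triangle (u := w) (v := x') (w := y)
      obtain ⟨k, hk⟩ : ∃ k, T.dist x u = k + 1 := by
        have : T.dist x u = T.dist u x := SimpleGraph.dist_comm
        exact ⟨T.dist x u - 1, by omega⟩
      obtain ⟨x'', ha', hd'⟩ := c_step hT hk
      have t4 := hT.connected.dist_triangle (u := w) (v := u) (w := x'')
      have e' := hT.dist_eq_dist_add_one_of_adj w ha'
      have c1 : T.dist x u = T.dist u x := SimpleGraph.dist_comm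
      have c2 : T.dist x'' u = T.dist u x'' := SimpleGraph.dist_comm
      have h6 : x' = x'' := c_pred hT ha.symm ha'.symm (w := w) (by omega) (by omega)
      subst h6
      exact ih x' y u v hd h1 h2 (by omega) h4 (by omega)
    · exact ih x' y u v hd h1 h2 (by omega) h4 (by omega)

/-- A line. -/
def Ln (T : SimpleGraph V) (α : ℤ → V) : Prop := ∀ i j : ℤ, (T.dist (α i) (α j) : ℤ) = |i - j|

/-- `α s` is the projection of `w` to the line `α`. -/
def Pr (T : SimpleGraph V) (α : ℤ → V) (w : V) (s : ℤ) : Prop :=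
  ∀ i, (T.dist w (α i) : ℤ) = T.dist w (α s) + |i - s|

theorem Ln.inj {α : ℤ → V} (hα : Ln T α) {i j : ℤ} (h : α i = α j) : i = j := by
  have h1 := hα i j
  rw [h, SimpleGraph.dist_self] at h1
  have h2 : i - j = 0 := abs_eq_zero.1 h1.symm
  omega

theorem Ln.adj {α : ℤ → V} (hα : Ln T α) (i : ℤ) : T.Adj (α i) (α (i + 1)) := by
  rw [← SimpleGraph.dist_eq_one_iff_adj]
  have h1 := hα i (i + 1)
  rw [show i - (i + 1) = -1 by ring, abs_neg, abs_one] at h1
  exact_mod_cast h1

theorem Ln.neg {α : ℤ → V} (hα : Ln T α) : Ln T fun i => α (-i) := by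
  intro i j
  rw [hα]
  rw [show -i - -j = -(i - j) by ring, abs_neg]

theorem c_up (hT : T.IsTree) {α : ℤ → V} (hα : Ln T α) {w : V} {s : ℤ}
    (hs : ∀ i, T.dist w (α s) ≤ T.dist w (α i)) (j : ℕ) :
    T.dist w (α (s + j)) = T.dist w (α s) + j ∧
      T.dist w (α (s + j + 1)) = T.dist w (α s) + j + 1 := by
  induction j with
  | zero =>
    have h1 := hT.dist_eq_dist_add_one_of_adj w (hα.adj s)
    have h2 := hs (s + 1)
    rw [Nat.cast_zero, add_zero]
    exact ⟨rfl, by omega⟩
  | succ j ih =>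
    obtain ⟨h1, h2⟩ := ih
    have h3 : s + ((j + 1 : ℕ) : ℤ) = s + j + 1 := by push_cast; ring
    rw [h3]
    refine ⟨by omega, ?_⟩
    have h4 := hT.dist_eq_dist_add_one_of_adj w (hα.adj (s + j + 1))
    rcases h4 with h4 | h4
    · exfalso
      have h5 := c_pred hT (w := w) (hα.adj (s + j)) (hα.adj (s + j + 1)).symm (by omega) (by omega)
      have h6 := hα.inj h5
      omega
    · omega

theorem exists_pr (hT : T.IsTree) {α : ℤ → V} (hα : Ln T α) (w : V) : ∃ s, Pr T α w s := by
  obtain ⟨s, hs⟩ : ∃ s, ∀ i, T.dist w (α s) ≤ T.dist w (α i) := by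
    have h0 : (Set.range fun i => T.dist w (α i)).Nonempty := ⟨_, 0, rfl⟩
    obtain ⟨s, hs⟩ := Nat.sInf_mem h0
    exact ⟨s, fun i => le_of_eq_of_le hs (Nat.sInf_le ⟨i, rfl⟩)⟩
  refine ⟨s, fun i => ?_⟩
  rcases le_total s i with h | h
  · obtain ⟨j, rfl⟩ := Int.le.dest h
    have h1 := (c_up hT hα hs j).1
    rw [h1, show s + (j : ℤ) - s = j by ring, Nat.abs_cast]
    push_cast
    ring
  · obtain ⟨j, hj⟩ := Int.le.dest h
    have hs' : ∀ k, T.dist w ((fun i => α (-i)) (-s)) ≤ T.dist w ((fun i => α (-i)) k) :=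
      fun k => by
        show T.dist w (α (- -s)) ≤ T.dist w (α (-k))
        rw [neg_neg]
        exact hs _
    have h1 := (c_up hT hα.neg hs' j).1
    have h2 : -(-s + (j : ℤ)) = i := by omega
    simp only [h2, neg_neg] at h1
    rw [h1, show i - s = -(j : ℤ) by omega, abs_neg, Nat.abs_cast]
    push_cast
    ring

theorem Pr.unique {α : ℤ → V} {w : V} {s s' : ℤ} (h : Pr T α w s) (h' : Pr T α w s') : s = s' := by
  have h1 := h s'
  have h2 := h' s
  have h3 := abs_nonneg (s' - s)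
  have h4 := abs_nonneg (s - s')
  have h5 : |s' - s| = 0 := by omega
  have h6 := abs_eq_zero.1 h5
  omega

/-- Two lines with vertices far out on both share a ray. -/
theorem c_share (hT : T.IsTree) {α β : ℤ → V} (hα : Ln T α) (hβ : Ln T β)
    (h : ∀ M : ℤ, ∃ w s s', M < s ∧ M < s' ∧ Pr T α w s ∧ Pr T β w s') :
    ∃ k N : ℤ, ∀ i, N ≤ i → β i = α (i + k) := by
  obtain ⟨c, hc⟩ : ∃ c : ℕ, T.dist (α 0) (β 0) = c := ⟨_, rfl⟩
  have key : ∀ M : ℤ, 0 ≤ M → ∃ k : ℤ, ∀ i : ℤ, c ≤ i → i + c ≤ M → α i = β (i + k) := by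
    intro M hM
    obtain ⟨w, s, s', hs, hs', hp, hp'⟩ := h M
    refine ⟨T.dist w (β 0) - T.dist w (α 0), fun i hi hiM => ?_⟩
    have t1 := hT.connected.dist_triangle (u := w) (v := α 0) (w := β 0)
    have t2 := hT.connected.dist_triangle (u := w) (v := β 0) (w := α 0)
    have t3 : T.dist (β 0) (α 0) = c := by rw [SimpleGraph.dist_comm]; exact hc
    have a0 := hp 0
    rw [show (0 : ℤ) - s = -s by ring, abs_neg, abs_of_pos (by omega)] at a0
    have b0 := hp' 0
    rw [show (0 : ℤ) - s' = -s' by ring, abs_neg, abs_of_pos (by omega)] at b0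
    have ai := hp i
    rw [abs_of_nonpos (by omega)] at ai
    have bi := hp' (i + (T.dist w (β 0) - T.dist w (α 0)))
    rw [abs_of_nonpos (by omega)] at bi
    have ai0 := hα i 0
    rw [abs_of_nonneg (by omega)] at ai0
    have bi0 := hβ (i + (T.dist w (β 0) - T.dist w (α 0))) 0
    rw [abs_of_nonneg (by omega)] at bi0
    exact c_anc hT (T.dist w (α i)) c (α 0) (β 0) _ _ hc rfl (by omega) (by omega) (by omega)
      (by omega)
  obtain ⟨k₀, hk₀⟩ := key (2 * c) (by omega)
  have hall : ∀ i : ℤ, c ≤ i → α i = β (i + k₀) := by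
    intro i hi
    obtain ⟨k, hk⟩ := key (i + c) (by omega)
    have h1 := hk c le_rfl (by omega)
    have h2 := hk₀ c le_rfl (by omega)
    have h3 := hβ.inj (h1.symm.trans h2)
    have h4 : k = k₀ := by omega
    rw [← h4]
    exact hk i hi (by omega)
  refine ⟨-k₀, c + k₀, fun i hi => ?_⟩
  have h1 := hall (i - k₀) (by omega)
  rw [show i - k₀ + k₀ = i by ring] at h1
  rw [← h1]
  rfl

end

/-! ## Ping-pong -/

section

variable {G : Type} [Group G] {V : Type} [MulAction G V] {T : SimpleGraph V}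

theorem TreeAct.dist (hA : TreeAct G V T) (g : G) (u v : V) :
    T.dist (g • u) (g • v) = T.dist u v := by
  have key : ∀ (g : G) (u v : V), T.dist (g • u) (g • v) ≤ T.dist u v := by
    intro g u v
    obtain ⟨p, hp⟩ := hA.tree.connected.exists_walk_length_eq_dist u v
    let f : T →g T := ⟨fun x => g • x, fun {a b} hab => hA.adj g a b hab⟩
    have h1 := SimpleGraph.dist_le (p.map f)
    rw [SimpleGraph.Walk.length_map, hp] at h1
    exact h1
  refine le_antisymm (key g u v) ?_
  have h1 := key g⁻¹ (g • u) (g • v)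
  rwa [inv_smul_smul, inv_smul_smul] at h1

theorem Pr.smul (hA : TreeAct G V T) {α : ℤ → V} {w : V} {s : ℤ} (h : Pr T α w s) (g : G) :
    Pr T (fun i => g • α i) (g • w) s := by
  intro i
  show (T.dist (g • w) (g • α i) : ℤ) = T.dist (g • w) (g • α s) + |i - s|
  rw [hA.dist, hA.dist]
  exact h i

theorem Pr.shift {α : ℤ → V} {w : V} {s n : ℤ} (h : Pr T (fun i => α (i + n)) w s) :
    Pr T α w (s + n) := by
  intro i
  have h1 := h (i - n)
  simp only [sub_add_cancel] at h1
  rw [h1, show i - n - s = i - (s + n) by ring]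

theorem IsAxis.pow {g : G} {γ : ℤ → V} {n : ℤ} (h : IsAxis T g γ n) (m : ℕ) (i : ℤ) :
    g ^ m • γ i = γ (i + m * n) := by
  induction m with
  | zero => simp
  | succ m ih =>
    rw [pow_succ', mul_smul, ih, h.2.2]
    congr 1
    push_cast
    ring

theorem Pr.pow (hA : TreeAct G V T) {g : G} {γ : ℤ → V} {n : ℤ} (h : IsAxis T g γ n) {w : V}
    {s : ℤ} (hp : Pr T γ w s) (m : ℕ) : Pr T γ (g ^ m • w) (s + m * n) := by
  have h1 := hp.smul hA (g ^ m)
  have h2 : (fun i => g ^ m • γ i) = fun i => γ (i + m * n) := funext fun i => h.pow m i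
  rw [h2] at h1
  exact h1.shift

theorem Pr.sign {α : ℤ → V} {w : V} {s : ℤ} (h : Pr T α w s) (δ : ℤˣ) :
    Pr T (fun i => α (δ * i)) w (δ * s) := by
  intro i
  show (T.dist w (α (δ * i)) : ℤ) = T.dist w (α (δ * (δ * s))) + |i - δ * s|
  rcases Int.units_eq_one_or δ with rfl | rfl
  · simp only [Units.val_one, one_mul]
    exact h i
  · simp only [Units.val_neg, Units.val_one, neg_mul, one_mul, neg_neg]
    rw [h (-i), show -i - s = -(i - -s) by ring, abs_neg]

theorem Ln.sign {α : ℤ → V} (hα : Ln T α) (δ : ℤˣ) : Ln T fun i => α (δ * i) := by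
  intro i j
  rcases Int.units_eq_one_or δ with rfl | rfl
  · simp only [Units.val_one, one_mul]
    exact hα i j
  · simp only [Units.val_neg, Units.val_one, neg_mul, one_mul]
    exact hα.neg i j

/-- Module C. -/
theorem stC : StC := by
  intro G _ V _ T hA hF g γ n hg h
  by_contra hcon
  push Not at hcon
  have hT := hA.tree
  have hγ : Ln T γ := hg.2.1
  choose p hp using fun w => exists_pr hT hγ w
  have hsep : ∀ δ ε : ℤˣ, ∃ M : ℤ, ∀ w, M < δ * p w → ¬ M < ε * p (h⁻¹ • w) := by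
    intro δ ε
    by_contra hc
    push Not at hc
    refine hcon ε δ ?_
    have hβ : Ln T fun i => h • γ (ε * i) := by
      intro i j
      rw [hA.dist]
      exact hγ.sign ε i j
    obtain ⟨k, N, hk⟩ := c_share hT (hγ.sign δ) hβ fun M => by
      obtain ⟨w, h1, h2⟩ := hc M
      refine ⟨w, δ * p w, ε * p (h⁻¹ • w), h1, h2, (hp w).sign δ, ?_⟩
      have h3 := ((hp (h⁻¹ • w)).sign ε).smul hA h
      rw [smul_inv_smul] at h3
      exact h3
    exact ⟨k, N, hk⟩
  choose M hM using hsep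
  obtain ⟨L, hL0, hL⟩ : ∃ L : ℤ, 0 ≤ L ∧ ∀ δ ε : ℤˣ, M δ ε ≤ L := by
    refine ⟨max 0 (max (max (M 1 1) (M 1 (-1))) (max (M (-1) 1) (M (-1) (-1)))), le_max_left _ _,
      fun δ ε => ?_⟩
    rcases Int.units_eq_one_or δ with rfl | rfl <;> rcases Int.units_eq_one_or ε with rfl | rfl <;>
      simp
  have hM' : ∀ (δ ε : ℤˣ) w, L < δ * p w → ¬ L < ε * p (h⁻¹ • w) := fun δ ε w h1 h2 =>
    hM δ ε w (lt_of_le_of_lt (hL δ ε) h1) (lt_of_le_of_lt (hL δ ε) h2)
  have hpγ : ∀ i, p (γ i) = i := by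
    intro i
    refine (hp (γ i)).unique fun j => ?_
    rw [hγ, hγ, sub_self, abs_zero, zero_add, abs_sub_comm]
  obtain ⟨m, hm⟩ : ∃ m : ℕ, 2 * L < m * n := by
    refine ⟨(2 * L + 1).toNat, ?_⟩
    have h1 : ((2 * L + 1).toNat : ℤ) = 2 * L + 1 := Int.toNat_of_nonneg (by omega)
    rw [h1]
    nlinarith [hg.1]
  have hpg : ∀ w, p (g ^ m • w) = p w + m * n := fun w =>
    (hp (g ^ m • w)).unique ((hp w).pow hA hg m)
  have hpg' : ∀ w, p ((g ^ m)⁻¹ • w) = p w - m * n := fun w => by
    have h1 := hpg ((g ^ m)⁻¹ • w)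
    rw [smul_inv_smul] at h1
    omega
  have hpp : ∀ w, L < p w → ¬ L < p (h⁻¹ • w) := fun w h1 h2 =>
    hM' 1 1 w (by rwa [Units.val_one, one_mul]) (by rwa [Units.val_one, one_mul])
  have hpn : ∀ w, L < p w → ¬ L < -p (h⁻¹ • w) := fun w h1 h2 =>
    hM' 1 (-1) w (by rwa [Units.val_one, one_mul])
      (by rwa [Units.val_neg, Units.val_one, neg_mul, one_mul])
  have hnp : ∀ w, L < -p w → ¬ L < p (h⁻¹ • w) := fun w h1 h2 =>
    hM' (-1) 1 w (by rwa [Units.val_neg, Units.val_one, neg_mul, one_mul])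
      (by rwa [Units.val_one, one_mul])
  have hnn : ∀ w, L < -p w → ¬ L < -p (h⁻¹ • w) := fun w h1 h2 =>
    hM' (-1) (-1) w (by rwa [Units.val_neg, Units.val_one, neg_mul, one_mul])
      (by rwa [Units.val_neg, Units.val_one, neg_mul, one_mul])
  have hconj : ∀ w : V, h⁻¹ • (h * g ^ m * h⁻¹) • w = g ^ m • h⁻¹ • w := fun w => by
    rw [mul_smul, mul_smul, inv_smul_smul]
  have hconj' : ∀ w : V, h⁻¹ • (h * g ^ m * h⁻¹)⁻¹ • w = (g ^ m)⁻¹ • h⁻¹ • w := fun w => by
    rw [mul_inv_rev, mul_inv_rev, inv_inv, mul_smul, mul_smul, inv_smul_smul]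
  have hinj := FreeGroup.injective_lift_of_ping_pong (ι := Fin 2) (G := G) (α := V)
    ![g ^ m, h * g ^ m * h⁻¹]
    ![{w | L < p w}, {w | L < p (h⁻¹ • w)}]
    ![{w | L < -p w}, {w | L < -p (h⁻¹ • w)}] ?_ ?_ ?_ ?_ ?_ ?_
  · exact hF ⟨_, hinj, le_top⟩
  · intro i
    fin_cases i
    · exact ⟨γ (L + 1), by show L < p (γ (L + 1)); rw [hpγ]; omega⟩
    · exact ⟨h • γ (L + 1), by show L < p (h⁻¹ • h • γ (L + 1)); rw [inv_smul_smul, hpγ]; omega⟩
  · intro i j hij
    refine Set.disjoint_left.2 fun w => ?_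
    fin_cases i <;> fin_cases j
    · exact absurd rfl hij
    · exact hpp w
    · exact fun h1 h2 => hpp w h2 h1
    · exact absurd rfl hij
  · intro i j hij
    refine Set.disjoint_left.2 fun w => ?_
    fin_cases i <;> fin_cases j
    · exact absurd rfl hij
    · exact hnn w
    · exact fun h1 h2 => hnn w h2 h1
    · exact absurd rfl hij
  · intro i j
    refine Set.disjoint_left.2 fun w => ?_
    fin_cases i <;> fin_cases j
    · intro h1 h2
      have h3 : L < p w := h1
      have h4 : L < -p w := h2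
      omega
    · exact hpn w
    · exact fun h1 h2 => hnp w h2 h1
    · intro h1 h2
      have h3 : L < p (h⁻¹ • w) := h1
      have h4 : L < -p (h⁻¹ • w) := h2
      omega
  · intro i
    fin_cases i
    · rintro _ ⟨w, hw, rfl⟩
      have h1 : ¬ L < -p w := hw
      show L < p (g ^ m • w)
      rw [hpg]
      omega
    · rintro _ ⟨w, hw, rfl⟩
      have h1 : ¬ L < -p (h⁻¹ • w) := hw
      show L < p (h⁻¹ • (h * g ^ m * h⁻¹) • w)
      rw [hconj, hpg]
      omega
  · intro i
    fin_cases i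
    · rintro _ ⟨w, hw, rfl⟩
      have h1 : ¬ L < p w := hw
      show L < -p ((g ^ m)⁻¹ • w)
      rw [hpg']
      omega
    · rintro _ ⟨w, hw, rfl⟩
      have h1 : ¬ L < p (h⁻¹ • w) := hw
      show L < -p (h⁻¹ • (h * g ^ m * h⁻¹)⁻¹ • w)
      rw [hconj', hpg']
      omega

end

end Pool.Agent.Lib.MP_e6f638_al
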