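import Pool.Agent.Lib.MP_e6f638_al.D2

/-!
Module D (helper90): `TA` and trees.
-/

set_option autoImplicit false

namespace Pool.Agent.Lib.MP_e6f638_al

namespace D

/-- The derived series of the second derived group. -/
lemma derived_add {H : Type} [Group H] (e : ℕ) (d : ℕ) :
    derivedSeries H (e + d) = (derivedSeries (derivedSeries H e) d).map
      (derivedSeries H e).subtype := by
  induction d with
  | zero =>
    rw [derivedSeries_zero, ← MonoidHom.range_eq_map, Subgroup.range_subtype, add_zero]
  | succ d ih =>
    rw [← add_assoc, derivedSeries_succ, ih, derivedSeries_succ, Subgroup.map_commutator]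

lemma hasF2_of_top {G : Type} [Group G] (H : Subgroup G) (h : HasF2 (⊤ : Subgroup H)) :
    HasF2 H := by
  obtain ⟨f, hf, _⟩ := h
  refine ⟨H.subtype.comp f, ?_, ?_⟩
  · rw [MonoidHom.coe_comp]
    exact (Subgroup.subtype_injective H).comp hf
  · rintro x ⟨y, rfl⟩
    exact (f y).2

lemma treeAct_comp {G : Type} [Group G] {V : Type} [MulAction G V] {T : SimpleGraph V}
    (h : TreeAct G V T) (H : Subgroup G) : TreeAct H V T where
  tree := h.tree
  adj := fun g u v huv => h.adj g u v huv
  inv := fun g u v huv hg => h.inv g u v huv hg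

end D

theorem stD (hA : StA) (hB2 : StB2) (hD2 : StD2) : StD := by
  classical
  intro G _ V _ T hT d hTA H hF
  obtain ⟨hA1, -, -, hA4, -⟩ := hA
  have hTH := D.treeAct_comp hT H
  have hFtop : ¬ HasF2 (⊤ : Subgroup H) := fun h => hF (D.hasF2_of_top H h)
  have hell := hD2 H V T hTH hFtop
  rw [add_comm, D.derived_add]
  rw [Subgroup.map_eq_bot_iff_of_injective _ (Subgroup.subtype_injective _)]
  apply hA4
  intro K hK
  have hTM := D.treeAct_comp (D.treeAct_comp hTH (derivedSeries H 2)) K
  have hKFG : Group.FG K := (Group.fg_iff_subgroup_fg K).mpr hK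
  obtain ⟨v, hv⟩ := hB2 K V T hTM (fun g => hell g.1.1 g.1.2) hKFG
  -- `K` embeds into the stabiliser of `v`
  let j : K →* MulAction.stabilizer G v :=
    { toFun := fun g => ⟨g.1.1.1, by
        rw [MulAction.mem_stabilizer_iff]
        exact hv g⟩
      map_one' := rfl
      map_mul' := fun a b => rfl }
  have hj : Function.Injective j := by
    intro a b hab
    apply Subtype.ext
    apply Subtype.ext
    apply Subtype.ext
    exact congrArg (fun x : MulAction.stabilizer G v => (x : G)) hab
  have hTAK : TA d K := hA1 K (MulAction.stabilizer G v) j d hj (hTA v)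
  have h1 := hTAK ⊤ (by
    rintro ⟨f, hf, _⟩
    apply hF
    refine ⟨H.subtype.comp ((derivedSeries H 2).subtype.comp (K.subtype.comp f)), ?_, ?_⟩
    · simp only [MonoidHom.coe_comp]
      exact (Subgroup.subtype_injective H).comp ((Subgroup.subtype_injective _).comp
        ((Subgroup.subtype_injective K).comp hf))
    · rintro x ⟨y, rfl⟩
      exact (f y).1.1.2)
  -- from `⊤` to `K`
  have h2 : derivedSeries K d = (derivedSeries (⊤ : Subgroup K) d).map
      (⊤ : Subgroup K).subtype := by
    have := D.derived_add (H := K) 0 d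
    rw [zero_add] at this
    exact this
  rw [h2, h1, Subgroup.map_bot]

end Pool.Agent.Lib.MP_e6f638_al
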