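import Pool.Agent.Lib.MP_e6f638_al.Stmts
import Pool.Agent.Lib.TreeTits.Four

/-!
# Module D1: ends fixed by powers of an element with an axis
-/

set_option autoImplicit false

namespace Pool.Agent.Lib.MP_e6f638_al

namespace D1

open Pool.Agent.Lib.TreeTits Pool.Agent.Lib.MP_551055_al.LS

section

variable {V : Type} {T : SimpleGraph V}

/-- Two geodesic lines with points at bounded distance. -/
theorem core (hT : T.IsTree) (γ y : ℤ → V)
    (hγ : ∀ i j : ℤ, (T.dist (γ i) (γ j) : ℤ) = |i - j|)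
    (hy : ∀ i j : ℤ, (T.dist (y i) (y j) : ℤ) = |i - j|)
    (k q N : ℤ) (hk : 0 < k)
    (hc : ∀ t : ℕ, T.dist (γ (q * t)) (y (N + k * t)) = T.dist (γ 0) (y N)) :
    ∃ (σ : ℤˣ) (k' N' : ℤ), ∀ i, N' ≤ i → y i = γ (σ * (i + k')) := by
  obtain ⟨c, hc0⟩ : ∃ c : ℕ, T.dist (γ 0) (y N) = c := ⟨_, rfl⟩
  simp only [hc0] at hc
  -- distances of the two lines
  have hγt : ∀ t : ℕ, (T.dist (γ 0) (γ (q * t)) : ℤ) = |q| * t := by
    intro t
    rw [hγ, zero_sub, abs_neg, abs_mul, abs_of_nonneg (Int.natCast_nonneg t)]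
  have hyt : ∀ t : ℕ, (T.dist (y N) (y (N + k * t)) : ℤ) = k * t := by
    intro t
    rw [hy, show N - (N + k * t) = -(k * t) by ring, abs_neg, abs_mul,
      abs_of_nonneg (Int.natCast_nonneg t), abs_of_pos hk]
  have hqk : |q| = k := by
    have h1 := hγt (2 * c + 1)
    have h2 := hyt (2 * c + 1)
    have h3 := hc (2 * c + 1)
    have h4 := hT.connected.dist_triangle (u := γ 0) (v := y N)
      (w := γ (q * ((2 * c + 1 : ℕ) : ℤ)))
    have h5 := hT.connected.dist_triangle (u := y N) (v := y (N + k * ((2 * c + 1 : ℕ) : ℤ)))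
      (w := γ (q * ((2 * c + 1 : ℕ) : ℤ)))
    have h6 := hT.connected.dist_triangle (u := y N) (v := γ 0)
      (w := y (N + k * ((2 * c + 1 : ℕ) : ℤ)))
    have h7 := hT.connected.dist_triangle (u := γ 0) (v := γ (q * ((2 * c + 1 : ℕ) : ℤ)))
      (w := y (N + k * ((2 * c + 1 : ℕ) : ℤ)))
    have h8 : T.dist (y (N + k * ((2 * c + 1 : ℕ) : ℤ))) (γ (q * ((2 * c + 1 : ℕ) : ℤ))) =
      T.dist (γ (q * ((2 * c + 1 : ℕ) : ℤ))) (y (N + k * ((2 * c + 1 : ℕ) : ℤ))) := T.dist_comm
    have h9 : T.dist (y N) (γ 0) = T.dist (γ 0) (y N) := T.dist_comm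
    have ha : |q| * ((2 * c + 1 : ℕ) : ℤ) ≤ k * ((2 * c + 1 : ℕ) : ℤ) + 2 * c := by omega
    have hb : k * ((2 * c + 1 : ℕ) : ℤ) ≤ |q| * ((2 * c + 1 : ℕ) : ℤ) + 2 * c := by omega
    have hp : (0 : ℤ) ≤ ((2 * c + 1 : ℕ) : ℤ) := Int.natCast_nonneg _
    rcases lt_trichotomy |q| k with h | h | h
    · have h10 := mul_le_mul_of_nonneg_right (Int.add_one_le_iff.2 h) hp
      rw [add_mul, one_mul] at h10
      push_cast at *
      omega
    · exact h
    · have h10 := mul_le_mul_of_nonneg_right (Int.add_one_le_iff.2 h) hp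
      rw [add_mul, one_mul] at h10
      push_cast at *
      omega
  have key : ∀ (s : ℤ) (t : ℕ), (c : ℤ) < s → s + c < k * t →
      (T.dist (γ 0) (y (N + s)) : ℤ) = T.dist (γ 0) (y (N + k * t)) - k * t + s ∧
      T.dist (γ 0) (γ (q * t)) = T.dist (γ 0) (y (N + s)) + T.dist (y (N + s)) (γ (q * t)) := by
    intro s t hs ht
    have e1 := hγt t
    have e2 := hyt t
    have e3 := hc t
    have e4 : (T.dist (y N) (y (N + s)) : ℤ) = s := by
      rw [hy, show N - (N + s) = -s by ring, abs_neg, abs_of_pos (by omega)]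
    have e5 : (T.dist (y (N + s)) (y (N + k * t)) : ℤ) = k * t - s := by
      rw [hy, show N + s - (N + k * t) = -(k * t - s) by ring, abs_neg, abs_of_pos (by omega)]
    rw [hqk] at e1
    generalize k * (t : ℤ) = K at *
    generalize γ (q * (t : ℤ)) = b at *
    generalize y (N + K) = z at *
    generalize y (N + s) = x at *
    generalize γ 0 = a at *
    generalize y N = w at *
    -- `w -- x -- z` geodesic, `a` close to `w`, `b` close to `z`
    have c1 : T.dist x w = T.dist w x := T.dist_comm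
    have c2 : T.dist z x = T.dist x z := T.dist_comm
    have c3 : T.dist z b = T.dist b z := T.dist_comm
    have c4 : T.dist w a = T.dist a w := T.dist_comm
    have c5 : T.dist x b = T.dist b x := T.dist_comm
    have c6 : T.dist z a = T.dist a z := T.dist_comm
    have f1 := four hT _ a x w z rfl
    have f2 := four hT _ b x w z rfl
    have f3 := four hT _ w b a z rfl
    have g1 := hT.connected.dist_triangle (u := a) (v := x) (w := z)
    have g2 := hT.connected.dist_triangle (u := b) (v := x) (w := w)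
    have g3 := hT.connected.dist_triangle (u := a) (v := x) (w := b)
    have g4 := hT.connected.dist_triangle (u := b) (v := a) (w := w)
    have g5 := hT.connected.dist_triangle (u := a) (v := b) (w := z)
    have c7 : T.dist b a = T.dist a b := T.dist_comm
    have c8 : T.dist b w = T.dist w b := T.dist_comm
    constructor
    · omega
    · omega
  -- the projections of the points far out
  have hq : q ≠ 0 := by
    intro h
    rw [h, abs_zero] at hqk
    omega
  obtain ⟨σ, hσ⟩ : ∃ σ : ℤˣ, q = σ * k := by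
    rcases lt_or_gt_of_ne hq with h | h
    · exact ⟨-1, by rw [← hqk, abs_of_neg h]; simp⟩
    · exact ⟨1, by rw [← hqk, abs_of_pos h]; simp⟩
  refine ⟨σ, T.dist (γ 0) (y (N + (c + 1))) - (c + 1) - N, N + (c + 1), fun i hi => ?_⟩
  obtain ⟨s, hs⟩ : ∃ s : ℤ, i = N + s := ⟨i - N, by ring⟩
  subst hs
  obtain ⟨t, ht⟩ : ∃ t : ℕ, (t : ℤ) = s + c + 1 := ⟨(s + c + 1).toNat, by
    rw [Int.toNat_of_nonneg]; omega⟩
  have hkt : (t : ℤ) ≤ k * t := by
    have h := mul_le_mul_of_nonneg_right (Int.add_one_le_iff.2 hk) (Int.natCast_nonneg t)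
    rw [zero_add, one_mul] at h
    exact h
  have h1 := key s t (by omega) (by omega)
  have h2 := key (c + 1) t (by omega) (by omega)
  have h3 : (T.dist (γ 0) (y (N + s)) : ℤ) =
      N + s + (T.dist (γ 0) (y (N + (c + 1))) - (c + 1) - N) := by
    have := h1.1
    have := h2.1
    omega
  rw [← h3]
  have e1 := hγt t
  rw [hqk] at e1
  have hle : (T.dist (γ 0) (y (N + s)) : ℤ) ≤ k * t := by
    rw [← e1]
    have := h1.2
    omega
  have h0 : (0 : ℤ) ≤ T.dist (γ 0) (y (N + s)) := Int.natCast_nonneg _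
  have hσs : |((σ : ℤˣ) : ℤ)| = 1 := by
    rcases Int.units_eq_one_or σ with h | h <;> simp [h]
  have e2 : (T.dist (γ 0) (γ (σ * (T.dist (γ 0) (y (N + s)) : ℤ))) : ℤ) =
      T.dist (γ 0) (y (N + s)) := by
    rw [hγ, zero_sub, abs_neg, abs_mul, hσs, one_mul, abs_of_nonneg h0]
  have e3 : (T.dist (γ (σ * (T.dist (γ 0) (y (N + s)) : ℤ))) (γ (q * t)) : ℤ) =
      k * t - T.dist (γ 0) (y (N + s)) := by
    rw [hγ, hσ, show (σ : ℤ) * (T.dist (γ 0) (y (N + s)) : ℤ) - σ * k * t =
      -(σ * (k * t - (T.dist (γ 0) (y (N + s)) : ℤ))) by ring, abs_neg, abs_mul, hσs, one_mul,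
      abs_of_nonneg (by omega)]
  refine tree_eq_of_dist hT (x := γ 0) (z := γ (q * t)) h1.2 ?_ ?_
  · omega
  · omega

end

section

variable {G : Type} [Group G] {V : Type} [MulAction G V] {T : SimpleGraph V}

theorem dist_smul_le (hA : MP_e6f638_al.TreeAct G V T) (g : G) (u v : V) :
    T.dist (g • u) (g • v) ≤ T.dist u v := by
  obtain ⟨p, hp⟩ := hA.tree.connected.exists_walk_length_eq_dist u v
  let f : T →g T := ⟨fun x => g • x, fun {a b} h => hA.adj g a b h⟩
  have h1 : T.dist (f u) (f v) ≤ (p.map f).length := T.dist_le _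
  rw [SimpleGraph.Walk.length_map, hp] at h1
  exact h1

theorem dist_smul (hA : MP_e6f638_al.TreeAct G V T) (g : G) (u v : V) :
    T.dist (g • u) (g • v) = T.dist u v := by
  refine le_antisymm (dist_smul_le hA g u v) ?_
  have h := dist_smul_le hA g⁻¹ (g • u) (g • v)
  rwa [inv_smul_smul, inv_smul_smul] at h

theorem pow_smul {g : G} {γ : ℤ → V} {n : ℤ} (h : ∀ i, g • γ i = γ (i + n)) (m : ℕ) (i : ℤ) :
    g ^ m • γ i = γ (i + m * n) := by
  induction m generalizing i with
  | zero => simp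
  | succ m ih =>
    rw [pow_succ, mul_smul, h, ih]
    congr 1
    push_cast
    ring

theorem zpow_smul {g : G} {γ : ℤ → V} {n : ℤ} (h : ∀ i, g • γ i = γ (i + n)) (j i : ℤ) :
    g ^ j • γ i = γ (i + j * n) := by
  rcases Int.le_total 0 j with hj | hj
  · obtain ⟨m, rfl⟩ := Int.eq_ofNat_of_zero_le hj
    rw [zpow_natCast]
    exact pow_smul h m i
  · obtain ⟨m, hm⟩ := Int.eq_ofNat_of_zero_le (Int.neg_nonneg_of_nonpos hj)
    have hj' : j = -(m : ℤ) := by omega
    rw [hj', zpow_neg, zpow_natCast, inv_smul_eq_iff, pow_smul h]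
    congr 1
    ring

theorem ray_pow {g : G} {y : ℤ → V} {k N : ℤ} (hk : 0 < k)
    (h : ∀ i, N ≤ i → g • y i = y (i + k)) (t : ℕ) :
    g ^ t • y N = y (N + k * t) := by
  induction t with
  | zero => simp
  | succ t ih =>
    have h1 : 0 ≤ k * (t : ℤ) := mul_nonneg hk.le (Int.natCast_nonneg t)
    rw [pow_succ', mul_smul, ih, h _ (by omega)]
    congr 1
    push_cast
    ring

/-- The case of positive translation. -/
theorem pos (hA : MP_e6f638_al.TreeAct G V T) {g : G} {γ : ℤ → V} {n : ℤ}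
    (hg : IsAxis T g γ n) (h : G) (δ : ℤˣ) (j k N : ℤ) (hk : 0 < k)
    (hR : ∀ i, N ≤ i → g ^ j • h • γ (δ * i) = h • γ (δ * (i + k))) :
    ∃ ε, R γ h δ ε := by
  obtain ⟨-, h1, h2⟩ := hg
  have hδ : |(δ : ℤ)| = 1 := by
    rcases Int.units_eq_one_or δ with h | h <;> simp [h]
  obtain ⟨σ, k', N', h3⟩ := core hA.tree γ (fun i => h • γ (δ * i)) h1
    (fun a b => by
      show (T.dist (h • γ (δ * a)) (h • γ (δ * b)) : ℤ) = _
      rw [dist_smul hA, h1, ← mul_sub, abs_mul, hδ, one_mul]) k (j * n) N hk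
    (fun t => by
      show T.dist _ (h • γ (δ * (N + k * t))) = T.dist _ (h • γ (δ * N))
      have e1 := ray_pow (g := g ^ j) (y := fun i => h • γ (δ * i)) hk hR t
      have e2 := zpow_smul h2 (j * t) 0
      rw [zero_add] at e2
      rw [← e1, show j * n * (t : ℤ) = j * t * n by ring, ← e2, zpow_mul, zpow_natCast,
        dist_smul hA])
  exact ⟨σ, k', N', h3⟩

end

end D1

theorem stD1 : StD1 := by
  intro G _ V _ T hA g γ n hg h δ j hj hR
  obtain ⟨k, N, hk⟩ := hR
  have hk' : ∀ i, N ≤ i → g ^ j • h • γ (δ * i) = h • γ (δ * (i + k)) := by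
    intro i hi
    have h1 := hk i hi
    rw [mul_smul, mul_smul, inv_smul_eq_iff] at h1
    exact h1
  rcases lt_trichotomy k 0 with h1 | h1 | h1
  · refine D1.pos hA hg h δ (-j) (-k) N (by omega) fun i hi => ?_
    have h2 := hk' (i - k) (by omega)
    rw [zpow_neg, inv_smul_eq_iff, show i + -k = i - k by ring, h2]
    congr 3
    ring
  · exfalso
    subst h1
    obtain ⟨hn, h2, h3⟩ := hg
    have h4 := hk' N le_rfl
    rw [add_zero] at h4
    generalize h • γ (δ * N) = y at h4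
    have h5 : ∀ t : ℕ, (g ^ j) ^ t • y = y := by
      intro t
      induction t with
      | zero => simp
      | succ t ih => rw [pow_succ', mul_smul, ih, h4]
    obtain ⟨c, hc⟩ : ∃ c : ℕ, T.dist (γ 0) y = c := ⟨_, rfl⟩
    have h6 := D1.zpow_smul h3 (j * (2 * c + 1 : ℕ)) 0
    have h7 : T.dist (γ (0 + j * (2 * c + 1 : ℕ) * n)) y = c := by
      have h15 := D1.dist_smul hA ((g ^ j) ^ (2 * c + 1)) (γ 0) y
      rw [h5, hc, ← zpow_natCast, ← zpow_mul, h6] at h15
      exact h15
    have h8 := h2 0 (0 + j * (2 * c + 1 : ℕ) * n)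
    have h9 := hA.tree.connected.dist_triangle (u := γ 0) (v := y)
      (w := γ (0 + j * (2 * c + 1 : ℕ) * n))
    have h10 : T.dist y (γ (0 + j * (2 * c + 1 : ℕ) * n)) =
      T.dist (γ (0 + j * (2 * c + 1 : ℕ) * n)) y := T.dist_comm
    rw [zero_add, zero_sub, abs_neg, abs_mul, abs_mul, abs_of_pos hn] at h8
    have h11 : (0 : ℤ) < |j| := abs_pos.2 hj
    have h12 : |((2 * c + 1 : ℕ) : ℤ)| = 2 * c + 1 := by
      rw [abs_of_nonneg (Int.natCast_nonneg _)]
      push_cast
      rfl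
    rw [h12] at h8
    have h13 : (2 * c + 1 : ℤ) ≤ |j| * (2 * c + 1) * n := by
      have h14 : (0 : ℤ) < |j| * n := mul_pos h11 hn
      nlinarith
    rw [zero_add] at h9 h10 h7
    omega
  · exact D1.pos hA hg h δ j k N h1 hk'

end Pool.Agent.Lib.MP_e6f638_al
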