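import Pool.Agent.Lib.MP_e6f638_al.Stmts

/-!
Module D2 (helper90): in a group without free subgroups of rank two which acts on a tree the
elements of the second derived group have fixed vertices.
-/

set_option autoImplicit false

namespace Pool.Agent.Lib.MP_e6f638_al

namespace D2

variable {G : Type} [Group G] {V : Type} [MulAction G V] {T : SimpleGraph V}

lemma inj {g : G} {γ : ℤ → V} {n : ℤ} (h : IsAxis T g γ n) {i j : ℤ} (hij : γ i = γ j) :
    i = j := by
  have h1 := h.2.1 i j
  rw [hij, SimpleGraph.dist_self] at h1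
  have h2 : |i - j| = 0 := by exact_mod_cast h1.symm
  have := abs_eq_zero.mp h2
  omega

lemma R_fun {g : G} {γ : ℤ → V} {n : ℤ} (ha : IsAxis T g γ n) {h : G} {δ ε ε' : ℤˣ}
    (h1 : R γ h δ ε) (h2 : R γ h δ ε') : ε = ε' := by
  obtain ⟨k, N, hk⟩ := h1
  obtain ⟨k', N', hk'⟩ := h2
  by_contra hne
  have e1 := hk (max (max N N') (|k| + |k'| + 1)) (le_trans (le_max_left _ _) (le_max_left _ _))
  have e2 := hk' (max (max N N') (|k| + |k'| + 1)) (le_trans (le_max_right _ _) (le_max_left _ _))
  have e3 := inj ha (e1.symm.trans e2)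
  have hm : |k| + |k'| + 1 ≤ max (max N N') (|k| + |k'| + 1) := le_max_right _ _
  set m := max (max N N') (|k| + |k'| + 1)
  have a1 := neg_abs_le k
  have a2 := neg_abs_le k'
  have a3 := abs_nonneg k
  have a4 := abs_nonneg k'
  rcases Int.units_eq_one_or ε with rfl | rfl <;> rcases Int.units_eq_one_or ε' with rfl | rfl
  · exact hne rfl
  · simp only [Units.val_one, one_mul, Units.val_neg, neg_mul] at e3
    omega
  · simp only [Units.val_one, one_mul, Units.val_neg, neg_mul] at e3
    omega
  · exact hne rfl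

lemma R_mul {γ : ℤ → V} {h h' : G} {δ ε ζ : ℤˣ} (h1 : R γ h δ ε) (h2 : R γ h' ε ζ) :
    R γ (h' * h) δ ζ := by
  obtain ⟨k, N, hk⟩ := h1
  obtain ⟨k', N', hk'⟩ := h2
  refine ⟨k + k', max N (N' - k), fun i hi => ?_⟩
  rw [mul_smul, hk i (le_trans (le_max_left _ _) hi), hk' (i + k) (by
    have := le_trans (le_max_right _ _) hi
    omega), add_assoc]

lemma R_inv {γ : ℤ → V} {h : G} {δ ε : ℤˣ} (h1 : R γ h δ ε) : R γ h⁻¹ ε δ := by
  obtain ⟨k, N, hk⟩ := h1
  refine ⟨-k, N + k, fun i hi => ?_⟩
  rw [inv_smul_eq_iff, hk (i + -k) (by omega)]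
  congr 2
  ring

lemma R_zpow {g : G} {γ : ℤ → V} {n : ℤ} (ha : IsAxis T g γ n) (δ : ℤˣ) (m : ℤ) :
    R γ (g ^ m) δ δ := by
  have h1 : R γ g δ δ := by
    refine ⟨δ * n, 0, fun i _ => ?_⟩
    rw [ha.2.2]
    congr 1
    rw [mul_add, ← mul_assoc, Int.units_coe_mul_self, one_mul]
  have hnat : ∀ m : ℕ, R γ (g ^ m) δ δ := by
    intro m
    induction m with
    | zero => exact ⟨0, 0, fun i _ => by simp⟩
    | succ m ih =>
      rw [pow_succ']
      exact R_mul ih h1
  cases m with
  | ofNat m => simpa using hnat m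
  | negSucc m =>
    rw [zpow_negSucc]
    exact R_inv (hnat _)

/-- Partial maps: `h' g ^ m h` is undefined at `δ` if `h δ = ε` and `h'` is undefined at `ε`. -/
lemma undef {g : G} {γ : ℤ → V} {n : ℤ} (ha : IsAxis T g γ n) {h h' : G} {δ ε : ℤˣ}
    (h1 : R γ h δ ε) (h2 : ∀ x, ¬ R γ h' ε x) (m : ℤ) (x : ℤˣ) : ¬ R γ (h' * g ^ m * h) δ x := by
  intro h3
  apply h2 x
  have h4 : R γ (g ^ m * h) δ ε := R_mul h1 (R_zpow ha ε m)
  have h5 := R_mul (R_inv h4) h3
  have h6 : h' * g ^ m * h * (g ^ m * h)⁻¹ = h' := by group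
  rwa [h6] at h5

lemma three {ε ε' ε'' : ℤˣ} : ε = ε' ∨ ε = ε'' ∨ ε' = ε'' := by
  rcases Int.units_eq_one_or ε with rfl | rfl <;> rcases Int.units_eq_one_or ε' with rfl | rfl <;>
    rcases Int.units_eq_one_or ε'' with rfl | rfl <;> simp

/-- If `h' g ^ m h` is defined at `δ` for `m = 0, 1, 2` then `h` is defined at `δ`. -/
lemma pigeon {g : G} {γ : ℤ → V} {n : ℤ} (_ha : IsAxis T g γ n)
    (hD1 : ∀ (h : G) (δ : ℤˣ) (j : ℤ), j ≠ 0 → R γ (h⁻¹ * g ^ j * h) δ δ → ∃ ε, R γ h δ ε)
    {h h' : G} {δ : ℤˣ} (hdef : ∀ m : ℤ, ∃ x, R γ (h' * g ^ m * h) δ x) : ∃ ε, R γ h δ ε := by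
  have key : ∀ (m m' : ℤ) (x : ℤˣ), m ≠ m' → R γ (h' * g ^ m * h) δ x →
      R γ (h' * g ^ m' * h) δ x → ∃ ε, R γ h δ ε := by
    intro m m' x hmm h1 h2
    have h3 := R_mul h2 (R_inv h1)
    have h4 : (h' * g ^ m * h)⁻¹ * (h' * g ^ m' * h) = h⁻¹ * g ^ (m' - m) * h := by
      rw [zpow_sub]
      group
    rw [h4] at h3
    exact hD1 h δ (m' - m) (by omega) h3
  obtain ⟨x0, h0⟩ := hdef 0
  obtain ⟨x1, h1⟩ := hdef 1
  obtain ⟨x2, h2⟩ := hdef 2
  rcases three (ε := x0) (ε' := x1) (ε'' := x2) with h | h | h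
  · exact key 0 1 x0 (by norm_num) h0 (by rw [h]; exact h1)
  · exact key 0 2 x0 (by norm_num) h0 (by rw [h]; exact h2)
  · exact key 1 2 x1 (by norm_num) h1 (by rw [h]; exact h2)

/-- All elements of the derived group fix one of the two ends. -/
lemma derived_fix {g : G} {γ : ℤ → V} {n : ℤ} (ha : IsAxis T g γ n)
    (hC : ∀ h : G, ∃ δ ε : ℤˣ, R γ h δ ε)
    (hD1 : ∀ (h : G) (δ : ℤˣ) (j : ℤ), j ≠ 0 → R γ (h⁻¹ * g ^ j * h) δ δ → ∃ ε, R γ h δ ε) :
    ∃ d : ℤˣ, ∀ h ∈ derivedSeries G 1, R γ h d d := by
  classical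
  -- partial elements fix the end at which they are defined
  have hpart : ∀ (h : G) (d : ℤˣ), (∀ x, ¬ R γ h (-d) x) → R γ h d d := by
    intro h d hund
    obtain ⟨δ, ε, hR⟩ := hC h
    have hδ : δ = d := by
      by_contra hne
      have : δ = -d := by
        rcases Int.units_eq_one_or δ with rfl | rfl <;> rcases Int.units_eq_one_or d with rfl | rfl
        · exact absurd rfl hne
        · simp
        · simp
        · exact absurd rfl hne
      rw [this] at hR
      exact hund _ hR
    subst hδ
    by_cases hε : ε = δ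
    · rwa [hε] at hR
    · exfalso
      have hε' : ε = -δ := by
        rcases Int.units_eq_one_or δ with rfl | rfl <;> rcases Int.units_eq_one_or ε with rfl | rfl
        · exact absurd rfl hε
        · simp
        · simp
        · exact absurd rfl hε
      subst hε'
      obtain ⟨x, hx⟩ := pigeon ha hD1 (h := h) (h' := h) (δ := -δ) (by
        intro m
        obtain ⟨a, b, hab⟩ := hC (h * g ^ m * h)
        have hne : a ≠ δ := by
          rintro rfl
          exact undef ha hR hund m b hab
        have ha' : a = -δ := by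
          rcases Int.units_eq_one_or δ with rfl | rfl <;>
            rcases Int.units_eq_one_or a with rfl | rfl
          · exact absurd rfl hne
          · simp
          · simp
          · exact absurd rfl hne
        rw [ha'] at hab
        exact ⟨b, hab⟩)
      exact hund x hx
  by_cases htot : ∀ (h : G) (d : ℤˣ), ∃ x, R γ h d x
  · -- all elements are total
    refine ⟨1, ?_⟩
    have hs : ∀ h : G, ∃ s : ℤˣ, ∀ δ, R γ h δ (s * δ) := by
      intro h
      obtain ⟨s, hs⟩ := htot h 1
      obtain ⟨s', hs'⟩ := htot h (-1)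
      have hne : s' ≠ s := by
        rintro rfl
        have h1 := R_mul hs (R_inv hs')
        have h2 := R_mul (R_inv h1) h1
        rw [inv_mul_cancel] at h1
        have h3 : R γ (1 : G) 1 1 := by simpa using R_zpow ha 1 0
        have := R_fun ha h1 h3
        simp at this
      refine ⟨s, fun δ => ?_⟩
      rcases Int.units_eq_one_or δ with rfl | rfl
      · rwa [mul_one]
      · have : s' = s * -1 := by
          rcases Int.units_eq_one_or s with rfl | rfl <;>
            rcases Int.units_eq_one_or s' with rfl | rfl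
          · exact absurd rfl hne
          · simp
          · simp
          · exact absurd rfl hne
        rwa [← this]
    let H : Subgroup G :=
      { carrier := {h | ∀ δ, R γ h δ δ}
        one_mem' := fun δ => by simpa using R_zpow ha δ 0
        mul_mem' := fun {a b} h1 h2 δ => R_mul (h2 δ) (h1 δ)
        inv_mem' := fun {a} h1 δ => R_inv (h1 δ) }
    have hle : derivedSeries G 1 ≤ H := by
      rw [derivedSeries_one, commutator_def, Subgroup.commutator_le]
      intro a _ b _ δ
      obtain ⟨s, hs1⟩ := hs a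
      obtain ⟨s', hs2⟩ := hs b
      -- `⁅a, b⁆ = a b a⁻¹ b⁻¹`
      have h1 : R γ b⁻¹ δ (s' * δ) := by
        have := R_inv (hs2 (s' * δ))
        rwa [← mul_assoc, Int.units_mul_self, one_mul] at this
      have h2 : R γ a⁻¹ (s' * δ) (s * (s' * δ)) := by
        have := R_inv (hs1 (s * (s' * δ)))
        rwa [← mul_assoc s s, Int.units_mul_self, one_mul] at this
      have h3 := hs2 (s * (s' * δ))
      have h4 := hs1 (s' * (s * (s' * δ)))
      have h5 := R_mul (R_mul (R_mul h1 h2) h3) h4
      rw [commutatorElement_def]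
      have h6 : s * (s' * (s * (s' * δ))) = δ := by
        rcases Int.units_eq_one_or s with rfl | rfl <;>
          rcases Int.units_eq_one_or s' with rfl | rfl <;> simp
      rw [h6] at h5
      simpa only [mul_assoc] using h5
    exact fun h hh => hle hh 1
  · push Not at htot
    obtain ⟨h₁, d, hd⟩ := htot
    -- `h₁` is undefined at `d`, so it fixes `-d`
    have hfix : R γ h₁ (-d) (-d) := hpart h₁ (-d) (by simpa using hd)
    refine ⟨-d, fun h _ => ?_⟩
    -- every element fixes `-d`
    have hdef : ∀ h₂ : G, ∃ x, R γ h₂ (-d) x := by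
      intro h₂
      by_contra hno
      push Not at hno
      -- `h₂` is undefined at `-d` and fixes `d`
      have hfix2 : R γ h₂ d d := hpart h₂ d hno
      obtain ⟨x, hx⟩ := pigeon ha hD1 (h := h₂) (h' := h₁) (δ := -d) (by
        intro m
        obtain ⟨a, b, hab⟩ := hC (h₁ * g ^ m * h₂)
        have hne : a ≠ d := by
          rintro rfl
          exact undef ha hfix2 hd m b hab
        have ha' : a = -d := by
          rcases Int.units_eq_one_or d with rfl | rfl <;>
            rcases Int.units_eq_one_or a with rfl | rfl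
          · exact absurd rfl hne
          · simp
          · simp
          · exact absurd rfl hne
        rw [ha'] at hab
        exact ⟨b, hab⟩)
      exact hno x hx
    obtain ⟨x, hx⟩ := hdef h
    by_cases hxd : x = -d
    · rwa [hxd] at hx
    · exfalso
      have hxd' : x = d := by
        rcases Int.units_eq_one_or d with rfl | rfl <;>
          rcases Int.units_eq_one_or x with rfl | rfl
        · rfl
        · exact absurd rfl hxd
        · exact absurd (by simp) hxd
        · rfl
      subst hxd'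
      -- `h` maps `-d` to `d`, so `h₁ h` is undefined at `-d`
      obtain ⟨y, hy⟩ := hdef (h₁ * h)
      have := undef ha hx hd 0 y
      rw [zpow_zero, mul_one] at this
      exact this hy

end D2

theorem stD2 (hB1 : StB1) (hC : StC) (hD1 : StD1) : StD2 := by
  classical
  intro G _ V _ T hT hF g hg
  by_contra hno
  push Not at hno
  obtain ⟨γ, n, ha⟩ := hB1 G V T hT g hno
  obtain ⟨d, hd⟩ := D2.derived_fix ha (hC G V T hT hF g γ n ha)
    (fun h δ j hj hR => hD1 G V T hT g γ n ha h δ j hj hR)
  -- elements fixing the ray near its end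
  let K : Subgroup G :=
    { carrier := {h | ∃ N : ℤ, ∀ i, N ≤ i → h • γ (d * i) = γ (d * i)}
      one_mem' := ⟨0, fun i _ => one_smul _ _⟩
      mul_mem' := by
        rintro a b ⟨N, h1⟩ ⟨N', h2⟩
        refine ⟨max N N', fun i hi => ?_⟩
        rw [mul_smul, h2 i (le_trans (le_max_right _ _) hi), h1 i (le_trans (le_max_left _ _) hi)]
      inv_mem' := by
        rintro a ⟨N, h1⟩
        refine ⟨N, fun i hi => ?_⟩
        rw [inv_smul_eq_iff, h1 i hi] }
  have hle : derivedSeries G 2 ≤ K := by
    rw [derivedSeries_succ, Subgroup.commutator_le]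
    intro a ha1 b hb1
    obtain ⟨k, N, hk⟩ := hd a ha1
    obtain ⟨k', N', hk'⟩ := hd b hb1
    have hai : ∀ i, N + k ≤ i → a⁻¹ • γ (d * i) = γ (d * (i - k)) := by
      intro i hi
      rw [inv_smul_eq_iff, hk (i - k) (by omega), sub_add_cancel]
    have hbi : ∀ i, N' + k' ≤ i → b⁻¹ • γ (d * i) = γ (d * (i - k')) := by
      intro i hi
      rw [inv_smul_eq_iff, hk' (i - k') (by omega), sub_add_cancel]
    refine ⟨|N| + |N'| + 2 * |k| + 2 * |k'|, fun i hi => ?_⟩
    have a1 := neg_abs_le k
    have a2 := neg_abs_le k'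
    have a3 := le_abs_self k
    have a4 := le_abs_self k'
    have a5 := le_abs_self N
    have a6 := le_abs_self N'
    have a7 := abs_nonneg N
    have a8 := abs_nonneg N'
    rw [commutatorElement_def, mul_smul, mul_smul, mul_smul, hbi i (by omega),
      hai (i - k') (by omega), hk' (i - k' - k) (by omega), hk (i - k' - k + k') (by omega)]
    congr 2
    ring
  obtain ⟨N, hN⟩ := hle hg
  have h1 := hN N le_rfl
  rw [ha.2.2] at h1
  have h2 := D2.inj ha h1
  have := ha.1
  omega

end Pool.Agent.Lib.MP_e6f638_al
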