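import Pool.Agent.Lib.MP_e6f638_al.E1

/-!
# Module E: `TA` and HNN extensions
-/

set_option autoImplicit false

namespace Pool.Agent.Lib.MP_e6f638_al

/-- Module E. -/
theorem stE (hA : StA) (hD : StD) : StE := by
  intro G _ A B φ d h
  obtain ⟨V, _, T, hT, hs⟩ := stE1 G A B φ
  refine hD _ V T hT d fun v => ?_
  obtain ⟨x, hx⟩ := hs v
  let i : G →* HNNExtension G A B φ := HNNExtension.of
  have hi : Function.Injective i := HNNExtension.of_injective φ
  let f : MulAction.stabilizer (HNNExtension G A B φ) v →* i.range :=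
    ((MulAut.conj x⁻¹).toMonoidHom.comp
      (MulAction.stabilizer (HNNExtension G A B φ) v).subtype).codRestrict i.range fun g => by
        obtain ⟨a, ha⟩ := hx g g.2
        refine ⟨a, ?_⟩
        change i a = x⁻¹ * (g : HNNExtension G A B φ) * x⁻¹⁻¹
        rw [ha]
        change i a = x⁻¹ * (x * i a * x⁻¹) * x⁻¹⁻¹
        group
  refine hA.1 _ G ((MonoidHom.ofInjective hi).symm.toMonoidHom.comp f) d ?_ h
  intro g g' hg
  have h1 : f g = f g' := (MonoidHom.ofInjective hi).symm.injective hg
  have h2 : MulAut.conj x⁻¹ (g : HNNExtension G A B φ) =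
      MulAut.conj x⁻¹ (g' : HNNExtension G A B φ) := congrArg Subtype.val h1
  exact Subtype.ext ((MulAut.conj x⁻¹).injective h2)

end Pool.Agent.Lib.MP_e6f638_al
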