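import Pool.Agent.Lib.MP_e6f638_al.Stmts

/-!
# Module F: words of `E` in the HNN extension `Ah`
-/

set_option autoImplicit false

namespace Pool.Agent.Lib.MP_e6f638_al

open Multiplicative HNNExtension HNNExtension.NormalWord

theorem eq_neg_of_ne' {ε σ : ℤˣ} (h : ε ≠ σ) : σ = -ε := by
  rcases Int.units_eq_one_or ε with rfl | rfl
  · rcases Int.units_eq_one_or σ with rfl | rfl
    · exact absurd rfl h
    · rfl
  · rcases Int.units_eq_one_or σ with rfl | rfl
    · rw [neg_neg]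
    · exact absurd rfl h

namespace Dat

variable {G : Type} [Group G] (D : Dat G)

/-! ## The map -/

theorem u_comm {b : G} (hb : b ∈ D.B) : D.u * D.ofG b = D.ofG b * D.u := by
  have := HNNExtension.t_mul_of (φ := MulEquiv.refl D.B) ⟨b, hb⟩
  simpa using this

theorem commute_u {b : G} (hb : b ∈ D.B) : Commute (D.ofG b) D.u := (D.u_comm hb).symm

theorem commute_tu {b : G} (hb : b ∈ D.B) {i : D.ι} (hc : Commute b (D.t i)) (n : ℕ) :
    Commute (D.ofG b) ((D.ofG (D.t i) * D.u) ^ n) :=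
  ((hc.map D.ofG).mul_right (D.commute_u hb)).pow_right n

/-- The map of the coproduct. -/
noncomputable def phi0 : Monoid.Coprod D.h.ker (FreeGroup D.ι) →* D.Ah :=
  Monoid.Coprod.lift (D.ofG.comp D.h.ker.subtype)
    (FreeGroup.lift fun i => (D.ofG (D.t i) * D.u) ^ D.l i)

/-- The map `φ`. -/
noncomputable def phi : D.E →* D.Ah :=
  QuotientGroup.lift (Subgroup.normalClosure D.rE) D.phi0 (by
    intro x hx
    have : Subgroup.normalClosure D.rE ≤ D.phi0.ker := by
      refine Subgroup.normalClosure_le_normal ?_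
      rintro r ⟨i, b, hb, hc, rfl⟩
      have h := D.commute_tu hb hc (D.l i)
      simp only [SetLike.mem_coe, MonoidHom.mem_ker, phi0, map_mul, map_inv,
        Monoid.Coprod.lift_apply_inr, Monoid.Coprod.lift_apply_inl, FreeGroup.lift_apply_of,
        MonoidHom.comp_apply, Subgroup.subtype_apply]
      rw [← h.eq]
      group
    exact this hx)

theorem isPhi_phi : D.IsPhi D.phi := by
  constructor
  · intro a
    simp [phi, inE, phi0]
  · intro i
    simp [phi, z, phi0]

/-- `φ` is unique. -/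
theorem IsPhi.unique {D : Dat G} {φ ψ : D.E →* D.Ah} (h1 : D.IsPhi φ) (h2 : D.IsPhi ψ) :
    φ = ψ := by
  refine MonoidHom.ext fun e => ?_
  obtain ⟨m, rfl⟩ := QuotientGroup.mk'_surjective (Subgroup.normalClosure D.rE) e
  have : (φ.comp (QuotientGroup.mk' (Subgroup.normalClosure D.rE))) =
      (ψ.comp (QuotientGroup.mk' (Subgroup.normalClosure D.rE))) := by
    refine Monoid.Coprod.hom_ext ?_ ?_
    · ext a
      exact (h1.1 a).trans (h2.1 a).symm
    · ext i
      exact (h1.2 i).trans (h2.2 i).symm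
  exact DFunLike.congr_fun this m

/-! ## Words of `E` -/

/-- The product of a word of `E`. -/
def eprod (L : List (D.ι × ℤˣ × D.h.ker)) : D.E :=
  (L.map fun p => D.z p.1 ^ (p.2.1 : ℤ) * D.inE p.2.2).prod

/-- Reduced words of `E`. -/
def ERed (L : List (D.ι × ℤˣ × D.h.ker)) : Prop :=
  L.IsChain (fun p q => p.1 = q.1 → p.2.1 = -q.2.1 →
    ¬ ((p.2.2 : G) ∈ D.B ∧ Commute (p.2.2 : G) (D.t p.1)))

theorem zF_comm {i : D.ι} {b : D.h.ker} (hb : (b : G) ∈ D.B) (hc : Commute (b : G) (D.t i)) :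
    Commute (D.z i) (D.inE b) := by
  have : QuotientGroup.mk' (Subgroup.normalClosure D.rE)
      (Monoid.Coprod.inr (FreeGroup.of i) * Monoid.Coprod.inl b *
      (Monoid.Coprod.inr (FreeGroup.of i))⁻¹ * (Monoid.Coprod.inl b)⁻¹) = 1 := by
    rw [← MonoidHom.mem_ker, QuotientGroup.ker_mk']
    exact Subgroup.subset_normalClosure ⟨i, b, hb, hc, rfl⟩
  simp only [map_mul, map_inv] at this
  rw [mul_inv_eq_one, mul_inv_eq_iff_eq_mul] at this
  exact this

theorem closure_E : Subgroup.closure (Set.range D.inE ∪ Set.range D.z) = ⊤ := by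
  rw [eq_top_iff]
  rintro e -
  obtain ⟨m, rfl⟩ := QuotientGroup.mk'_surjective (Subgroup.normalClosure D.rE) e
  induction m using Monoid.Coprod.induction_on with
  | inl a => exact Subgroup.subset_closure (Or.inl ⟨a, rfl⟩)
  | inr w =>
    induction w using FreeGroup.induction_on with
    | C1 => simp only [map_one]; exact one_mem _
    | of i => exact Subgroup.subset_closure (Or.inr ⟨i, rfl⟩)
    | inv_of i h => simpa only [map_inv] using inv_mem h
    | mul x y hx hy => simpa only [map_mul] using mul_mem hx hy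
  | mul x y hx hy => rw [map_mul]; exact mul_mem hx hy

/-- The elements with a reduced word. -/
def HasRed (e : D.E) : Prop := ∃ (a : D.h.ker) (L : List (D.ι × ℤˣ × D.h.ker)), D.ERed L ∧
  e = D.inE a * D.eprod L

theorem HasRed.inE_mul {D : Dat G} {e : D.E} (h : D.HasRed e) (b : D.h.ker) :
    D.HasRed (D.inE b * e) := by
  obtain ⟨a, L, hL, rfl⟩ := h
  exact ⟨b * a, L, hL, by rw [map_mul, mul_assoc]⟩

theorem HasRed.z_mul {D : Dat G} {e : D.E} (h : D.HasRed e) (i : D.ι) (ε : ℤˣ) :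
    D.HasRed (D.z i ^ (ε : ℤ) * e) := by
  obtain ⟨a, L, hL, rfl⟩ := h
  rcases L with _ | ⟨p, L⟩
  · exact ⟨1, [(i, ε, a)], List.isChain_singleton _, by simp [eprod]⟩
  · by_cases hp : i = p.1 ∧ ε = -p.2.1 ∧ (a : G) ∈ D.B ∧ Commute (a : G) (D.t i)
    · obtain ⟨rfl, hε, hb, hc⟩ := hp
      refine ⟨a * p.2.2, L, (List.isChain_cons.1 hL).2, ?_⟩
      have h1 : D.z p.1 ^ (ε : ℤ) * D.inE a = D.inE a * D.z p.1 ^ (ε : ℤ) :=
        ((D.zF_comm hb hc).zpow_left _).eq
      have h2 : D.z p.1 ^ (ε : ℤ) * D.z p.1 ^ (p.2.1 : ℤ) = 1 := by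
        rw [hε, ← zpow_add]
        simp
      rw [map_mul, eprod, List.map_cons, List.prod_cons, ← mul_assoc, ← mul_assoc, h1,
        ← mul_assoc, mul_assoc (D.inE a), h2, mul_one, mul_assoc, mul_assoc, eprod]
    · refine ⟨1, (i, ε, a) :: p :: L, ?_, ?_⟩
      · refine List.isChain_cons_cons.2 ⟨?_, hL⟩
        rintro h1 h2 ⟨h3, h4⟩
        exact hp ⟨h1, h2, h3, h4⟩
      · simp [eprod, mul_assoc]

theorem hasRed (e : D.E) : D.HasRed e := by
  have : e ∈ Subgroup.closure (Set.range D.inE ∪ Set.range D.z) := by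
    rw [D.closure_E]; trivial
  induction this using Subgroup.closure_induction_left with
  | one => exact ⟨1, [], List.isChain_nil, by simp [eprod]⟩
  | mul_left x hx y _ hy =>
    rcases hx with ⟨a, rfl⟩ | ⟨i, rfl⟩
    · exact hy.inE_mul a
    · simpa using hy.z_mul i 1
  | inv_mul_cancel x hx y _ hy =>
    rcases hx with ⟨a, rfl⟩ | ⟨i, rfl⟩
    · rw [← map_inv]; exact hy.inE_mul _
    · simpa using hy.z_mul i (-1)

/-! ## Reduced words of `Ah` -/

theorem toSubgroup_eq (ε : ℤˣ) : toSubgroup D.B D.B ε = D.B := by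
  rcases Int.units_eq_one_or ε with rfl | rfl <;> rfl

/-- The product of the letters of a word of `Ah`. -/
noncomputable def hprod (M : List (ℤˣ × G)) : D.Ah :=
  (M.map fun x => D.u ^ (x.1 : ℤ) * D.ofG x.2).prod

/-- The chain condition. -/
def HRed (M : List (ℤˣ × G)) : Prop := M.IsChain (fun a b => a.2 ∈ D.B → a.1 = b.1)

theorem hred_iff (M : List (ℤˣ × G)) : D.HRed M ↔
    M.IsChain (fun a b => a.2 ∈ toSubgroup D.B D.B a.1 → a.1 = b.1) := by
  unfold HRed
  simp only [D.toSubgroup_eq]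

theorem exists_word (g : G) (M : List (ℤˣ × G)) (hM : D.HRed M) :
    ∃ w : ReducedWord G D.B D.B, w.head = g ∧ w.toList = M ∧
      w.prod (MulEquiv.refl D.B) = D.ofG g * D.hprod M :=
  ⟨⟨g, M, (D.hred_iff M).1 hM⟩, rfl, rfl, rfl⟩

/-- The element before the first letter of a block. -/
def hd (ε : ℤˣ) (g : G) : G := if ε = 1 then g else 1

/-- The element behind the last letter of a block. -/
def tl (ε : ℤˣ) (g : G) : G := if ε = 1 then 1 else g⁻¹

theorem tl_mul_hd (ε : ℤˣ) (g : G) : tl ε g * hd ε g = 1 ∨ tl ε g * hd ε g = g ^ (ε : ℤ) := by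
  rcases Int.units_eq_one_or ε with rfl | rfl
  · right; simp [tl, hd]
  · right; simp [tl, hd]

theorem block_eq (i : D.ι) (ε : ℤˣ) (n : ℕ) :
    ((D.ofG (D.t i) * D.u) ^ (n + 1)) ^ (ε : ℤ) =
      D.ofG (hd ε (D.t i)) * (D.u ^ (ε : ℤ) * D.ofG (D.t i ^ (ε : ℤ))) ^ n * D.u ^ (ε : ℤ) *
        D.ofG (tl ε (D.t i)) := by
  rcases Int.units_eq_one_or ε with rfl | rfl
  · simp only [hd, tl, if_pos, Units.val_one, zpow_one, map_one, mul_one]
    induction n with
    | zero => simp
    | succ n ih =>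
      rw [pow_succ', ih, pow_succ' _ n]
      simp only [mul_assoc]
  · have hne : ¬ ((-1 : ℤˣ) = 1) := by decide
    simp only [hd, tl, if_neg hne, Units.val_neg, Units.val_one, zpow_neg, zpow_one, map_one,
      one_mul, map_inv]
    rw [← inv_pow, mul_inv_rev, pow_succ]
    simp only [mul_assoc]

theorem hprod_cons (ε : ℤˣ) (g : G) (M : List (ℤˣ × G)) :
    D.hprod ((ε, g) :: M) = D.u ^ (ε : ℤ) * D.ofG g * D.hprod M := by
  simp [hprod]

theorem hprod_replicate (ε : ℤˣ) (g : G) (n : ℕ) (M : List (ℤˣ × G)) :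
    D.hprod (List.replicate n (ε, g) ++ M) =
      (D.u ^ (ε : ℤ) * D.ofG g) ^ n * D.hprod M := by
  induction n with
  | zero => simp
  | succ n ih =>
    rw [List.replicate_succ, List.cons_append, hprod_cons, ih, pow_succ']
    simp only [mul_assoc]

theorem hred_replicate (ε : ℤˣ) (g : G) (n : ℕ) (x : G) (M : List (ℤˣ × G))
    (h : D.HRed ((ε, x) :: M)) : D.HRed (List.replicate n (ε, g) ++ (ε, x) :: M) := by
  induction n with
  | zero => simpa using h
  | succ n ih =>
    rw [List.replicate_succ, List.cons_append]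
    rcases n with _ | n
    · exact List.isChain_cons_cons.2 ⟨fun _ => rfl, h⟩
    · rw [List.replicate_succ, List.cons_append] at ih ⊢
      exact List.isChain_cons_cons.2 ⟨fun _ => rfl, ih⟩

/-- The data of the word of `Ah` of a word of `E` starting with the block `i`, `ε`. -/
def Good (i : D.ι) (ε : ℤˣ) (y : D.Ah) : Prop :=
  ∃ (σ : ℤˣ) (r r' : G) (rest : List (ℤˣ × G)), D.HRed ((ε, r) :: (σ, r') :: rest) ∧
    y = D.ofG (hd ε (D.t i)) * D.hprod ((ε, r) :: (σ, r') :: rest) ∧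
    D.Chain (fun _ => True) i ε r σ ∧ (rest = [] → D.Chain (fun i => D.l i = 2) i ε r σ)

theorem zpow_neg_units_mul (ε : ℤˣ) (y : D.Ah) : D.u ^ (ε : ℤ) * (D.u ^ ((-ε : ℤˣ) : ℤ) * y) = y := by
  rw [← mul_assoc, ← zpow_add]
  simp

/-- A block in front of a word, no cancellation. -/
theorem good_block (i : D.ι) (ε : ℤˣ) (c : G) (M : List (ℤˣ × G))
    (h : D.HRed ((ε, tl ε (D.t i) * c) :: M)) :
    D.Good i ε (((D.ofG (D.t i) * D.u) ^ D.l i) ^ (ε : ℤ) * (D.ofG c * D.hprod M)) := by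
  obtain ⟨n, hn⟩ : ∃ n, D.l i = n + 2 := ⟨D.l i - 2, by have := D.two_le i; omega⟩
  have hred : D.HRed ((ε, D.t i ^ (ε : ℤ)) :: (List.replicate n (ε, D.t i ^ (ε : ℤ)) ++
      (ε, tl ε (D.t i) * c) :: M)) := by
    have := D.hred_replicate ε (D.t i ^ (ε : ℤ)) (n + 1) _ _ h
    rwa [List.replicate_succ, List.cons_append] at this
  have hprod : ((D.ofG (D.t i) * D.u) ^ D.l i) ^ (ε : ℤ) * (D.ofG c * D.hprod M) =
      D.ofG (hd ε (D.t i)) * D.hprod ((ε, D.t i ^ (ε : ℤ)) ::
        (List.replicate n (ε, D.t i ^ (ε : ℤ)) ++ (ε, tl ε (D.t i) * c) :: M)) := by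
    have h1 := D.hprod_replicate ε (D.t i ^ (ε : ℤ)) (n + 1) ((ε, tl ε (D.t i) * c) :: M)
    rw [List.replicate_succ, List.cons_append] at h1
    rw [h1, hn, show n + 2 = (n + 1) + 1 from rfl, D.block_eq, hprod_cons, map_mul D.ofG (tl _ _)]
    simp only [mul_assoc]
  rcases n with _ | n
  · exact ⟨ε, D.t i ^ (ε : ℤ), tl ε (D.t i) * c, M, hred, hprod, .base i ε trivial,
      fun _ => .base i ε hn⟩
  · rw [List.replicate_succ, List.cons_append] at hred hprod
    exact ⟨ε, _, _, _, hred, hprod, .base i ε trivial, fun h => by simp at h⟩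

theorem good_cons (hW : D.W) (i j : D.ι) (ε ε' : ℤˣ) (a : D.h.ker) (y : D.Ah)
    (hy : D.Good j ε' y)
    (hr : i = j → ε = -ε' → ¬ ((a : G) ∈ D.B ∧ Commute (a : G) (D.t i))) :
    D.Good i ε (((D.ofG (D.t i) * D.u) ^ D.l i) ^ (ε : ℤ) * (D.ofG a * y)) := by
  obtain ⟨σ, r, r', rest, h1, rfl, h3, h4⟩ := hy
  set c : G := tl ε (D.t i) * (a * hd ε' (D.t j)) with hc
  by_cases hcan : ε = -ε' ∧ c ∈ D.B
  · obtain ⟨he, hcB⟩ := hcan
    obtain rfl : ε' = -ε := by rw [he, neg_neg]
    obtain ⟨n, hn⟩ : ∃ n, D.l i = n + 2 := ⟨D.l i - 2, by have := D.two_le i; omega⟩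
    have hnc : i = j → ¬ Commute c (D.t i) := by
      rintro rfl hcc
      refine hr rfl (by simp) ?_
      rcases Int.units_eq_one_or ε with rfl | rfl
      · have : c = a := by simp [hc, tl, hd]
        rw [← this]
        exact ⟨hcB, hcc⟩
      · have h5 : c = (D.t i)⁻¹ * (a * D.t i) := by simp [hc, tl, hd]
        have h6 : (a : G) = c := by
          have h7 : D.t i * c = a * D.t i := by rw [h5]; group
          rw [← hcc.eq] at h7
          exact (mul_right_cancel h7).symm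
        rw [h6]
        exact ⟨hcB, hcc⟩
    have hred1 : D.HRed ((ε, D.t i ^ (ε : ℤ) * c * r) :: (σ, r') :: rest) := by
      refine List.isChain_cons_cons.2 ⟨?_, (List.isChain_cons.1 h1).2⟩
      intro hmem
      by_contra hne
      have hσ : σ = -ε := eq_neg_of_ne' hne
      rw [hσ] at h3
      exact hW i j ε c r hcB hnc h3 hmem
    have hred : D.HRed (List.replicate n (ε, D.t i ^ (ε : ℤ)) ++
        (ε, D.t i ^ (ε : ℤ) * c * r) :: (σ, r') :: rest) :=
      D.hred_replicate ε _ n _ _ hred1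
    have hprod : ((D.ofG (D.t i) * D.u) ^ D.l i) ^ (ε : ℤ) *
        (D.ofG a * (D.ofG (hd (-ε) (D.t j)) * D.hprod ((-ε, r) :: (σ, r') :: rest))) =
        D.ofG (hd ε (D.t i)) * D.hprod (List.replicate n (ε, D.t i ^ (ε : ℤ)) ++
          (ε, D.t i ^ (ε : ℤ) * c * r) :: (σ, r') :: rest) := by
      rw [hn, show n + 2 = (n + 1) + 1 from rfl, D.block_eq, D.hprod_replicate, hprod_cons,
        D.hprod_cons ε]
      have h5 : D.ofG (tl ε (D.t i)) * (D.ofG a * (D.ofG (hd (-ε) (D.t j)) *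
          (D.u ^ ((-ε : ℤˣ) : ℤ) * D.ofG r * D.hprod ((σ, r') :: rest)))) =
          D.ofG c * (D.u ^ ((-ε : ℤˣ) : ℤ) * (D.ofG r * D.hprod ((σ, r') :: rest))) := by
        rw [hc, map_mul, map_mul]
        simp only [mul_assoc]
      have h6 : D.u ^ (ε : ℤ) * D.ofG c = D.ofG c * D.u ^ (ε : ℤ) :=
        ((D.commute_u hcB).zpow_right _).symm.eq
      rw [mul_assoc _ (D.ofG (tl ε (D.t i))), h5, pow_succ]
      have h7 : D.u ^ (ε : ℤ) * (D.ofG c * (D.u ^ ((-ε : ℤˣ) : ℤ) *
          (D.ofG r * D.hprod ((σ, r') :: rest)))) =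
          D.ofG c * (D.ofG r * D.hprod ((σ, r') :: rest)) := by
        rw [← mul_assoc, h6, mul_assoc, D.zpow_neg_units_mul]
      simp only [mul_assoc] at h7 ⊢
      rw [h7]
      simp only [map_mul, mul_assoc]
    rw [hprod]
    rcases n with _ | n
    · exact ⟨σ, D.t i ^ (ε : ℤ) * c * r, r', rest, hred, rfl, .step i j ε c r σ hn hcB hnc h3,
        fun h => .step i j ε c r σ hn hcB hnc (h4 h)⟩
    · rw [List.replicate_succ, List.cons_append] at hred ⊢
      rcases n with _ | n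
      · exact ⟨ε, D.t i ^ (ε : ℤ), D.t i ^ (ε : ℤ) * c * r, (σ, r') :: rest, hred, rfl,
          .base i ε trivial, fun h => by simp at h⟩
      · rw [List.replicate_succ, List.cons_append] at hred ⊢
        exact ⟨ε, _, _, _, hred, rfl, .base i ε trivial, fun h => by simp at h⟩
  · have h5 : D.HRed ((ε, tl ε (D.t i) * (a * hd ε' (D.t j))) :: (ε', r) :: (σ, r') :: rest) := by
      refine List.isChain_cons_cons.2 ⟨?_, h1⟩
      intro hmem
      by_contra hne
      refine hcan ⟨?_, hmem⟩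
      have hne' : ε' = -ε := eq_neg_of_ne' hne
      rw [hne', neg_neg]
    have := D.good_block i ε (a * hd ε' (D.t j)) _ h5
    rw [map_mul] at this
    simpa only [mul_assoc] using this

theorem good_eprod (hW : D.W) (L : List (D.ι × ℤˣ × D.h.ker)) (hL : D.ERed L) :
    ∀ p ∈ L.head?, D.Good p.1 p.2.1 (D.phi (D.eprod L)) := by
  induction L with
  | nil => simp
  | cons p L ih =>
    intro q hq
    obtain rfl : p = q := by simpa using hq
    have h1 : D.phi (D.eprod (p :: L)) = ((D.ofG (D.t p.1) * D.u) ^ D.l p.1) ^ (p.2.1 : ℤ) *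
        (D.ofG p.2.2 * D.phi (D.eprod L)) := by
      simp only [eprod, List.map_cons, List.prod_cons, map_mul, map_zpow, D.isPhi_phi.1,
        D.isPhi_phi.2, mul_assoc]
    rw [h1]
    rcases L with _ | ⟨q, L⟩
    · have h2 := D.good_block p.1 p.2.1 (p.2.2 : G) [] (List.isChain_singleton _)
      simpa [eprod, hprod] using h2
    · have h3 := ih (List.isChain_cons.1 hL).2 q (by simp)
      exact D.good_cons hW p.1 q.1 p.2.1 q.2.1 p.2.2 _ h3 (List.isChain_cons_cons.1 hL).1

theorem good_word {i : D.ι} {ε : ℤˣ} {y : D.Ah} (h : D.Good i ε y) (a : G) :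
    ∃ w : ReducedWord G D.B D.B, w.prod (MulEquiv.refl D.B) = D.ofG a * y ∧
        ∃ (σ : ℤˣ) (r r' : G) (rest : List (ℤˣ × G)),
          w.toList = (ε, r) :: (σ, r') :: rest ∧ D.Chain (fun _ => True) i ε r σ ∧
          (rest = [] → D.Chain (fun i => D.l i = 2) i ε r σ) := by
  obtain ⟨σ, r, r', rest, h1, rfl, h3, h4⟩ := h
  obtain ⟨w, _, hw2, hw3⟩ := D.exists_word (a * hd ε (D.t i)) _ h1
  refine ⟨w, ?_, σ, r, r', rest, hw2, h3, h4⟩
  rw [hw3, map_mul, mul_assoc]

theorem good_not_range {i : D.ι} {ε : ℤˣ} {y : D.Ah} (h : D.Good i ε y) (a : G) :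
    D.ofG a * y ∉ D.ofG.range := by
  intro hr
  obtain ⟨w, hw, σ, r, r', rest, hl, -⟩ := D.good_word h a
  rw [← hw] at hr
  have := HNNExtension.ReducedWord.toList_eq_nil_of_mem_of_range _ w hr
  rw [hl] at this
  exact absurd this (by simp)

end Dat

/-- Module F. -/
theorem stF : StF := by
  intro G _ D hW
  refine ⟨D.phi, D.isPhi_phi, ?_, ?_, ?_⟩
  · rw [injective_iff_map_eq_one]
    intro e he
    obtain ⟨a, L, hL, rfl⟩ := D.hasRed e
    rcases L with _ | ⟨p, L⟩
    · simp only [Dat.eprod, List.map_nil, List.prod_nil, mul_one, D.isPhi_phi.1] at he ⊢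
      have h1 : (a : G) = 1 := HNNExtension.of_injective (φ := MulEquiv.refl D.B)
        (by rw [map_one]; exact he)
      have h2 : a = 1 := Subtype.ext h1
      rw [h2, map_one]
    · exfalso
      have h1 := D.good_eprod hW _ hL p (by simp)
      apply D.good_not_range h1 a
      rw [map_mul, D.isPhi_phi.1] at he
      rw [he]
      exact one_mem _
  · intro e he
    obtain ⟨a, L, hL, rfl⟩ := D.hasRed e
    rcases L with _ | ⟨p, L⟩
    · exact ⟨a, by simp [Dat.eprod, D.isPhi_phi.1]⟩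
    · exfalso
      have h1 := D.good_eprod hW _ hL p (by simp)
      rw [map_mul, D.isPhi_phi.1] at he
      exact D.good_not_range h1 a he
  · intro e he
    obtain ⟨a, L, hL, rfl⟩ := D.hasRed e
    rcases L with _ | ⟨p, L⟩
    · exfalso
      apply he
      simp only [Dat.eprod, List.map_nil, List.prod_nil, mul_one, D.isPhi_phi.1]
      exact ⟨_, rfl⟩
    · have h1 := D.good_eprod hW _ hL p (by simp)
      obtain ⟨w, hw, σ, r, r', rest, hl, h3, h4⟩ := D.good_word h1 a
      rw [map_mul, D.isPhi_phi.1]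
      exact ⟨w, hw, p.1, p.2.1, σ, r, r', rest, hl, h3, h4⟩

end Pool.Agent.Lib.MP_e6f638_al
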