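import Pool.Agent.Lib.MP_e6f638_al.I1

/-!
# Artin groups of even Coxeter matrices
-/

set_option autoImplicit false

namespace Pool.Agent.Results.MP_e6f638_al.EvenArtin

/-- The alternating word `a b a ⋯` with `n` letters. -/
def alt {G : Type} [Group G] (a b : G) : ℕ → G
  | 0 => 1
  | n + 1 => a * alt b a n

/-- The relators of the Artin group of the Coxeter matrix `M`: `sts⋯ = tst⋯` with `M s t` letters on
both sides, for all `s`, `t`. (The value `M s t = 0` stands for infinity: no relation.) -/
def artinRels {S : Type} (M : CoxeterMatrix S) : Set (FreeGroup S) :=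
  {r | ∃ s t : S, r = alt (FreeGroup.of s) (FreeGroup.of t) (M s t) *
    (alt (FreeGroup.of t) (FreeGroup.of s) (M s t))⁻¹}

/-- The Artin group of the Coxeter matrix `M`. -/
abbrev ArtinGroup {S : Type} (M : CoxeterMatrix S) : Type := PresentedGroup (artinRels M)

end Pool.Agent.Results.MP_e6f638_al.EvenArtin

namespace Pool.Agent.Lib.MP_e6f638_al

open Pool.Agent.Results.MP_e6f638_al.EvenArtin

theorem alt_two_mul {G : Type} [Group G] (a b : G) (n : ℕ) : alt a b (2 * n) = (a * b) ^ n := by
  induction n with
  | zero => simp [alt]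
  | succ n ih =>
    rw [show 2 * (n + 1) = (2 * n) + 1 + 1 from by ring]
    change a * (b * alt a b (2 * n)) = _
    rw [ih, pow_succ', mul_assoc]

theorem map_alt {G K : Type} [Group G] [Group K] (f : G →* K) (a b : G) (n : ℕ) :
    f (alt a b n) = alt (f a) (f b) n := by
  induction n generalizing a b with
  | zero => exact map_one f
  | succ n ih =>
    change f (a * alt b a n) = f a * alt (f b) (f a) n
    rw [map_mul, ih]

section

variable {S : Type} (M : CoxeterMatrix S)

/-- The half labels of a Coxeter matrix. -/
def half : S → S → ℕ := fun s t => M s t / 2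

theorem half_symm (s t : S) : half M s t = half M t s := by
  unfold half
  rw [M.symmetric]

/-- The map of the Artin group to the group with half labels. -/
noncomputable def toEA (hE : ∀ s t, s ≠ t → Even (M s t)) : ArtinGroup M →* EA (half M) :=
  PresentedGroup.toGroup (f := gen (half M)) (by
    rintro r ⟨s, t, rfl⟩
    rw [map_mul, map_inv, mul_inv_eq_one, map_alt, map_alt, FreeGroup.lift_apply_of,
      FreeGroup.lift_apply_of]
    by_cases h : s = t
    · rw [h]
    · have h2 : M s t = 2 * half M s t := by
        have := (hE s t h).two_dvd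
        unfold half
        omega
      rw [h2, alt_two_mul, alt_two_mul]
      exact gen_rel (half M) s t)

/-- The inverse map. -/
noncomputable def ofEA (hE : ∀ s t, s ≠ t → Even (M s t)) : EA (half M) →* ArtinGroup M :=
  liftEA (half M) (fun s => PresentedGroup.of s) (by
    intro s t
    by_cases h : s = t
    · rw [h]
    · have h2 : M s t = 2 * half M s t := by
        have := (hE s t h).two_dvd
        unfold half
        omega
      have h3 : (PresentedGroup.mk (artinRels M)) (alt (FreeGroup.of s) (FreeGroup.of t) (M s t) *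
          (alt (FreeGroup.of t) (FreeGroup.of s) (M s t))⁻¹) = 1 :=
        PresentedGroup.one_of_mem ⟨s, t, rfl⟩
      rw [map_mul, map_inv, mul_inv_eq_one, map_alt, map_alt, h2, alt_two_mul, alt_two_mul] at h3
      exact h3)

theorem ofEA_toEA (hE : ∀ s t, s ≠ t → Even (M s t)) (y : ArtinGroup M) :
    ofEA M hE (toEA M hE y) = y := by
  have : (ofEA M hE).comp (toEA M hE) = MonoidHom.id _ := by
    refine PresentedGroup.ext fun s => ?_
    have h1 : toEA M hE (PresentedGroup.of s) = gen (half M) s := PresentedGroup.toGroup.of _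
    rw [MonoidHom.comp_apply, h1]
    exact liftEA_gen _ _ _ _
  exact DFunLike.congr_fun this y

theorem toEA_injective (hE : ∀ s t, s ≠ t → Even (M s t)) : Function.Injective (toEA M hE) :=
  Function.LeftInverse.injective (ofEA_toEA M hE)

end

/-- The main theorem in terms of Coxeter matrices. -/
def StFin : Prop :=
  ∀ (S : Type) [Finite S] (M : CoxeterMatrix S), (∀ s t : S, s ≠ t → Even (M s t)) →
    (∀ s t v : S, s ≠ t → s ≠ v → t ≠ v → ¬ (M s t = 4 ∧ M s v = 4 ∧ M t v = 2)) →
    ∀ H : Subgroup (ArtinGroup M),
      (∃ f : FreeGroup (Fin 2) →* ArtinGroup M, Function.Injective f ∧ f.range ≤ H) ∨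
        Group.IsSolvable H

theorem stFin (hA : StA) (hI4 : StI4) : StFin := by
  intro S _ M hE hT H
  have h4 : TA (4 * Nat.card S) (EA (half M)) := by
    refine hI4 S (half M) (half_symm M) ?_
    rintro s t v h1 h2 h3 ⟨h4, h5, h6⟩
    refine hT s t v h1 h2 h3 ⟨?_, ?_, ?_⟩
    · have := (hE s t h1).two_dvd
      unfold half at h4
      omega
    · have := (hE s v h2).two_dvd
      unfold half at h5
      omega
    · have := (hE t v h3).two_dvd
      unfold half at h6
      omega
  have h5 : TA (4 * Nat.card S) (ArtinGroup M) :=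
    hA.1 _ _ (toEA M hE) _ (toEA_injective M hE) h4
  by_cases hF : HasF2 H
  · exact Or.inl hF
  · exact Or.inr ⟨⟨_, h5 H hF⟩⟩

end Pool.Agent.Lib.MP_e6f638_al
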