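import Pool.Agent.Lib.MP_e6f638_al.GDefs

/-!
# Module G1
-/

set_option autoImplicit false

namespace Pool.Agent.Lib.MP_e6f638_al

/-- Module G1. -/
theorem stG1 (hA : StA) (hE : StE) (hF : StF) : StG1 := by
  intro G _ D hW A _ i v hExt d hd
  obtain ⟨φ, hφ, hinj, -, -⟩ := hF G D hW
  have h1 : TA (d + 2) D.Ah := hE G D.B D.B (MulEquiv.refl D.B) d hd
  have h2 : TA (d + 2) D.hh.ker :=
    hA.1 _ _ D.hh.ker.subtype _ D.hh.ker.subtype_injective h1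
  have h3 : TA (d + 2 + 2) (D.Om hφ hinj) := hE _ _ _ _ _ h2
  obtain ⟨ψ, -, -, hψ⟩ := D.exists_psi hφ hinj hExt
  exact hA.1 _ _ ψ _ hψ h3

end Pool.Agent.Lib.MP_e6f638_al
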