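import Pool.Agent.Lib.MP_e6f638_al.H3

/-!
# Module H: alternating words
-/

set_option autoImplicit false

namespace Pool.Agent.Lib.MP_e6f638_al

open Multiplicative HNNExtension HNNExtension.NormalWord

/-- The case of a generator commuting with all others. -/
theorem hn_central {S : Type} (l : S → S → ℕ) (hl : ∀ s t, l s t = l t s) (hI1 : StI1)
    (N : Set S) (hN1 : ∀ s ∈ N, ∀ t ∈ N, s ≠ t → l s t ≠ 1) (u : S) (hu : u ∈ N)
    (hc : ∀ s, s ≠ u → l u s = 1) : HN l N := by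
  intro L hne hred hdef hmem
  have hNu : ∀ s ∈ N, s = u := by
    intro s hs
    by_contra h
    exact hN1 u hu s hs (fun h' => h h'.symm) (hc s h)
  have hcomm : ∀ b ∈ par l Nᶜ, Commute b (gen l u) := by
    intro b hb
    have : par l Nᶜ ≤ Subgroup.centralizer {gen l u} := by
      refine (Subgroup.closure_le _).2 ?_
      rintro _ ⟨s, hs, rfl⟩
      have hsu : s ≠ u := by
        rintro rfl
        exact hs hu
      rw [SetLike.mem_coe, Subgroup.mem_centralizer_singleton_iff]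
      have h1 : (gen l u * gen l s) ^ l u s * ((gen l s * gen l u) ^ l u s)⁻¹ = 1 := by
        have h2 : (FreeGroup.of u * FreeGroup.of s) ^ l u s *
            ((FreeGroup.of s * FreeGroup.of u) ^ l u s)⁻¹ ∈ rels l := ⟨u, s, rfl⟩
        have h3 := PresentedGroup.one_of_mem h2
        simpa [gen, PresentedGroup.of] using h3
      rw [hc s hsu, pow_one, pow_one, mul_inv_eq_one] at h1
      exact h1.symm
    exact (Subgroup.mem_centralizer_singleton_iff.1 (this hb))
  have hsame : ∀ (L : List (Letter l)), IsRed l N L → ∀ a ∈ L.head?, ∀ p ∈ L, p.2.1 = a.2.1 := by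
    intro L
    induction L with
    | nil => intro _ a ha; simp at ha
    | cons a L ih =>
      intro hL a' ha'
      have e1 : a' = a := by simpa using ha'.symm
      subst e1
      rw [isRed_cons] at hL
      obtain ⟨⟨h1, h2⟩, h3, h4⟩ := hL
      intro p hp
      rcases List.mem_cons.1 hp with rfl | hp
      · rfl
      · rcases L with _ | ⟨b, L⟩
        · simp at hp
        · have h5 := ih h4 b (by simp) p hp
          rw [h5]
          have hbN := ((isRed_cons b L).1 h4).1.1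
          by_contra hne
          refine h3 b (by simp) ((hNu _ h1).trans (hNu _ hbN).symm) (eq_neg_of_ne' hne) ?_
          rw [hNu _ h1]
          exact hcomm _ h2
  classical
  obtain ⟨hw, -⟩ := hI1 S l hl
  obtain ⟨w, hw⟩ := hw (fun x => if x ∈ N then 1 else 0)
  have hwN : ∀ s ∈ N, w (gen l s) = ofAdd 1 := by
    intro s hs
    rw [hw, if_pos hs]
  have hwP : ∀ b ∈ par l Nᶜ, w b = 1 := by
    intro b hb
    refine weight_par w ?_ b hb
    intro s hs
    rw [hw, if_neg hs, ofAdd_zero]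
  have h1 := weight_wprod w hwN hwP L hred.1
  rw [hwP _ hmem] at h1
  have h2 : (L.map fun p => ((p.2.1 : ℤˣ) : ℤ)).sum = 0 := by
    have := ofAdd.injective (h1.symm.trans ofAdd_zero.symm)
    exact this
  rcases L with _ | ⟨a, L⟩
  · exact hne rfl
  · have h3 := hsame (a :: L) hred a (by simp)
    have h4 : ((a :: L).map fun p => ((p.2.1 : ℤˣ) : ℤ)) =
        List.replicate (L.length + 1) ((a.2.1 : ℤˣ) : ℤ) := by
      rw [List.eq_replicate_iff]
      refine ⟨by simp, ?_⟩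
      intro x hx
      obtain ⟨p, hp, rfl⟩ := List.mem_map.1 hx
      rw [h3 p hp]
    rw [h4, List.sum_replicate, nsmul_eq_mul] at h2
    rcases mul_eq_zero.1 h2 with h5 | h5
    · have : ((L.length + 1 : ℕ) : ℤ) ≠ 0 := by positivity
      exact this h5
    · exact a.2.1.ne_zero h5

/-- The induction step. -/
theorem hn_step (hF : StF) (hG2 : StG2) (hI1 : StI1) (hI2 : StI2) {S : Type}
    (l : S → S → ℕ) (hl : ∀ s t, l s t = l t s)
    (ih : ∀ (u : S) (N : Set {x : S // x ≠ u}),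
      (∀ s ∈ N, ∀ t ∈ N, s ≠ t → del l u s t ≠ 1) → (∀ s ∈ N, ∀ c ∉ N, del l u s c ≠ 2) →
      HN (del l u) N)
    (N : Set S) (hN1 : ∀ s ∈ N, ∀ t ∈ N, s ≠ t → l s t ≠ 1)
    (hN2 : ∀ s ∈ N, ∀ c ∉ N, l s c ≠ 2) : HN l N := by
  intro L hne hred hdef hmem
  rcases L with _ | ⟨a, L⟩
  · exact hne rfl
  obtain ⟨u, hu⟩ : ∃ u, a.1 = u := ⟨_, rfl⟩
  have huN : u ∈ N := hu ▸ (hred.1 a (by simp)).1
  by_cases hex : ∃ s : {x : S // x ≠ u}, l u s ≠ 1
  swap
  · push Not at hex
    exact hn_central l hl hI1 N hN1 u huN (fun s hs => hex ⟨s, hs⟩) (a :: L) hne hred hdef hmem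
  obtain ⟨D, hD, i, hi, hinj, hext⟩ := hI2 S l hl u hex
  set N' : Set {x : S // x ≠ u} := {x | x.1 ∈ N} with hN'
  have hH : HN (del l u) N' := by
    refine ih u N' ?_ ?_
    · intro s hs t ht hst
      exact hN1 s hs t ht (fun h => hst (Subtype.ext h))
    · intro s hs c hc
      exact hN2 s hs c hc
  have hN1' : ∀ s ∈ N', l u s ≠ 1 := fun s hs => hN1 u huN s hs (fun h => s.2 h.symm)
  have hN2' : ∀ s ∉ N', l u s ≠ 2 := fun s hs => hN2 u huN s hs
  have hW : D.W := w_ofH hI1 hl hD hN1' hN2' hH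
  obtain ⟨φ, hφ, -, -, hφ4⟩ := hF (EA (del l u)) D hW
  have hparle : par l Nᶜ ≤ (par (del l u) N'ᶜ).map i := by
    refine (Subgroup.closure_le _).2 ?_
    rintro _ ⟨s, hs, rfl⟩
    have hsu : s ≠ u := by
      rintro rfl
      exact hs huN
    exact ⟨gen (del l u) ⟨s, hsu⟩, gen_mem_parH (by exact hs), hi ⟨s, hsu⟩⟩
  have hpull : ∃ pull : EA l → EA (del l u), ∀ b ∈ par l Nᶜ,
      pull b ∈ par (del l u) N'ᶜ ∧ i (pull b) = b := by
    have : ∀ b : EA l, ∃ c : EA (del l u), b ∈ par l Nᶜ → c ∈ par (del l u) N'ᶜ ∧ i c = b := by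
      intro b
      by_cases hb : b ∈ par l Nᶜ
      · obtain ⟨c, hc, hcb⟩ := hparle hb
        exact ⟨c, fun _ => ⟨hc, hcb⟩⟩
      · exact ⟨1, fun h => absurd h hb⟩
    choose pull h using this
    exact ⟨pull, h⟩
  obtain ⟨pull, hpull⟩ := hpull
  have hredp := spl_red i hi hpull (a :: L) hred
  have hprod := spl_prod i hi (fun b hb => (hpull b hb).2) (a :: L) (fun p hp => (hred.1 p hp).2)
  have hchain := spl_chain i D.B (fun b hb => hext.comm b hb) (fun b hb => (hpull b hb).2)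
    (a :: L) hred
  have hsigns := spl_signs u pull (a :: L)
  have hsp := spl_u u pull a L hu
  set R0 := (spl u pull (a :: L)).2 with hR0
  have h1 : (spl u pull (a :: L)).1 = [] := by rw [hsp]
  have hR0ne : R0 ≠ [] := by rw [hR0, hsp]; simp
  rw [h1, wprod_nil, map_one, one_mul] at hprod
  rw [h1, List.map_nil, List.nil_append] at hsigns
  -- the word in `u` is reduced
  have hBP := par_B_le hD hN1'
  have hdef0 : defects (R0.flatMap (sg u)) ≤ 1 := by rw [← hsigns]; exact hdef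
  have hdefq : ∀ q ∈ R0, defects (q.2.2.map fun p => p.2.1) ≤ 1 := by
    intro q hq
    obtain ⟨Q1, Q2, hQ⟩ := List.append_of_mem hq
    rw [hQ, List.flatMap_append, List.flatMap_cons] at hdef0
    have h2 := defects_append_ge (Q1.flatMap (sg u)) (sg u q ++ Q2.flatMap (sg u))
    have h3 := defects_append_ge (sg u q) (Q2.flatMap (sg u))
    have h4 := defects_append_ge [q.1] (q.2.2.map fun p => p.2.1)
    have h5 : [q.1] ++ (q.2.2.map fun p => p.2.1) = sg u q := rfl
    rw [h5] at h4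
    omega
  have hRg : D.HRed (R0.map (val u)) := by
    refine (List.isChain_map (val u)).2 ?_
    refine List.IsChain.imp_of_mem_imp ?_ hchain
    intro x y hx _ hxy
    simp only [val]
    intro hB
    obtain ⟨hx1, hx2⟩ := hredp.2 x hx
    by_cases hxe : x.2.2 = []
    · by_contra hne'
      refine hxy hxe ?_ ?_
      · rw [eq_neg_of_ne' hne', neg_neg]
      · rw [hxe, wprod_nil, mul_one] at hB
        exact hB
    · exfalso
      refine hH x.2.2 hxe hx2 (hdefq x hx) ?_
      exact ((par _ _).mul_mem_cancel_left hx1).1 (hBP hB)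
  -- conversion
  have hcv := cv_prod D.t₀ i (gen l u) (R0.map (val u))
  refine hG2 (EA (del l u)) D hW (EA l) i (gen l u) hext φ hφ (cv D.t₀ (R0.map (val u))) ?_ ?_ ?_
  · rcases h2 : R0 with _ | ⟨q, Q⟩
    · exact absurd h2 hR0ne
    · rw [List.map_cons]
      simp [val, cv]
  · intro L₁ R₀ δ κ L₂ hsplit _ hmem2
    rw [List.append_assoc] at hsplit
    obtain ⟨R₁, R', hR1, hR2⟩ := cv_split D.t₀ _ _ _ hsplit
    obtain ⟨RR, p, R₂, hR3, hR4⟩ := cv_run D.t₀ D.ofG D.u R₀ δ κ L₂ R' hR2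
    have hmem3 : (List.map (fun p => (D.ofG D.t₀ * D.u) ^ (p.1 : ℤ) * D.ofG p.2) R₀).prod *
        (D.ofG D.t₀ * D.u) ^ (δ : ℤ) ∈ φ.range := hmem2
    rw [hR4, ← map_inv] at hmem3
    obtain ⟨Q₁, Q', hQ1, hQ2, hQ3⟩ := List.map_eq_append_iff.1 hR1
    rw [hR3] at hQ3
    obtain ⟨QQ, Q'', hQ4, hQ5, hQ6⟩ := List.map_eq_append_iff.1 hQ3
    obtain ⟨q, Q₂, hQ7, hQ8, -⟩ := List.map_eq_cons_iff.1 hQ6
    have hqδ : q.1 = δ := congrArg Prod.fst hQ8
    have hR0e : R0 = Q₁ ++ (QQ ++ q :: Q₂) := by rw [hQ1, hQ4, hQ7]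
    refine run_not hI1 hl hD hN1' hN2' hH (φ := φ) hφ4 QQ ?_ δ (sufh D.t₀ R')⁻¹
      (pre D.t₀ δ)⁻¹ ?_ ?_ ?_
    · intro x hx
      exact hredp.2 x (by rw [hR0e]; simp [hx])
    · rw [hQ5]
      rw [hR1, hR3] at hRg
      have h2 := List.isChain_append.1 (List.isChain_append.1 hRg).2.1
      refine List.isChain_append.2 ⟨h2.1, List.isChain_singleton _, ?_⟩
      intro x hx y hy
      have e1 : y = (δ, (pre D.t₀ δ)⁻¹) := by simpa using hy.symm
      subst e1
      exact h2.2.2 x hx (δ, p) (by simp)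
    · rw [hR0e, List.flatMap_append, List.flatMap_append, List.flatMap_cons] at hdef0
      have h3 : QQ.flatMap (sg u) ++ (sg u q ++ Q₂.flatMap (sg u)) =
          (QQ.flatMap (sg u) ++ [δ]) ++ ((q.2.2.map fun p => p.2.1) ++ Q₂.flatMap (sg u)) := by
        rw [← hqδ]
        simp [sg]
      rw [h3] at hdef0
      have h4 := defects_append_ge (Q₁.flatMap (sg u)) ((QQ.flatMap (sg u) ++ [δ]) ++
        ((q.2.2.map fun p => p.2.1) ++ Q₂.flatMap (sg u)))
      have h5 := defects_append_ge (QQ.flatMap (sg u) ++ [δ])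
        ((q.2.2.map fun p => p.2.1) ++ Q₂.flatMap (sg u))
      omega
    · rw [hQ5]
      exact hmem3
  · rw [hcv, ← map_inv]
    refine i.range.mul_mem ⟨_, rfl⟩ ?_
    rw [List.map_map]
    have h2 : (List.map ((fun p : ℤˣ × EA (del l u) => gen l u ^ (p.1 : ℤ) * i p.2) ∘ val u)
        R0).prod = wprod l (a :: L) := hprod.symm
    rw [h2]
    obtain ⟨c, -, hc⟩ := hparle hmem
    exact ⟨c, hc⟩

/-- Module H. -/
theorem stH (hG2 : StG2) (hI1 : StI1) (hI2 : StI2) : StH := by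
  have key : ∀ n : ℕ, ∀ (S : Type) [Finite S] (l : S → S → ℕ), Nat.card S = n →
      (∀ s t, l s t = l t s) → ∀ N : Set S, (∀ s ∈ N, ∀ t ∈ N, s ≠ t → l s t ≠ 1) →
      (∀ s ∈ N, ∀ c ∉ N, l s c ≠ 2) → HN l N := by
    intro n
    induction n using Nat.strong_induction_on with
    | _ n ih =>
      intro S _ l hn hl N hN1 hN2
      refine hn_step stF hG2 hI1 hI2 l hl ?_ N hN1 hN2
      intro u N' h1 h2
      refine ih (Nat.card {x : S // x ≠ u}) ?_ {x : S // x ≠ u} (del l u) rfl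
        (fun s t => hl s t) N' h1 h2
      rw [← hn]
      exact Finite.card_subtype_lt (x := u) (by simp)
  intro S _ l hl N hN1 hN2 L h1 h2 h3
  exact key (Nat.card S) S l rfl hl N hN1 hN2 L h1 h2 h3

end Pool.Agent.Lib.MP_e6f638_al
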