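import Pool.Agent.Lib.MP_e6f638_al.H2

/-!
# Module H, third part: splitting words at a generator, runs
-/

set_option autoImplicit false

namespace Pool.Agent.Lib.MP_e6f638_al

open Multiplicative HNNExtension HNNExtension.NormalWord

/-! ## Splitting a word at the letters `u` -/

section Split

variable {S : Type} {l : S → S → ℕ}

/-- A piece: sign of the letter `u`, coefficient, word without `u`. -/
abbrev Piece (l : S → S → ℕ) (u : S) : Type :=
  ℤˣ × EA (del l u) × List (Letter (del l u))

open Classical in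
/-- Splitting a word at the letters `u`. -/
noncomputable def spl (u : S) (pull : EA l → EA (del l u)) : List (Letter l) →
    List (Letter (del l u)) × List (Piece l u)
  | [] => ([], [])
  | a :: L =>
    if h : a.1 = u then ([], (a.2.1, pull a.2.2, (spl u pull L).1) :: (spl u pull L).2)
    else ((⟨a.1, h⟩, a.2.1, pull a.2.2) :: (spl u pull L).1, (spl u pull L).2)

variable (u : S) (pull : EA l → EA (del l u))

theorem spl_nil : spl u pull [] = ([], []) := rfl

theorem spl_u (a : Letter l) (L : List (Letter l)) (h : a.1 = u) :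
    spl u pull (a :: L) = ([], (a.2.1, pull a.2.2, (spl u pull L).1) :: (spl u pull L).2) := by
  rw [spl, dif_pos h]

theorem spl_ne (a : Letter l) (L : List (Letter l)) (h : a.1 ≠ u) :
    spl u pull (a :: L) =
      ((⟨a.1, h⟩, a.2.1, pull a.2.2) :: (spl u pull L).1, (spl u pull L).2) := by
  rw [spl, dif_neg h]

/-- The signs of a piece. -/
def sg (q : Piece l u) : List ℤˣ := q.1 :: q.2.2.map fun p => p.2.1

/-- The value of a piece. -/
def val (q : Piece l u) : ℤˣ × EA (del l u) := (q.1, q.2.1 * wprod (del l u) q.2.2)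

theorem spl_signs (L : List (Letter l)) :
    L.map (fun p => p.2.1) = (spl u pull L).1.map (fun p => p.2.1) ++
      (spl u pull L).2.flatMap (sg u) := by
  induction L with
  | nil => simp [spl_nil]
  | cons a L ih =>
    by_cases h : a.1 = u
    · rw [spl_u u pull a L h, List.map_cons, ih]
      simp [sg]
    · rw [spl_ne u pull a L h, List.map_cons, ih]
      simp

variable {u pull}

theorem spl_prod {N : Set S} (i : EA (del l u) →* EA l) (hi : ∀ s, i (gen (del l u) s) = gen l s)
    (hpull : ∀ b ∈ par l Nᶜ, i (pull b) = b) (L : List (Letter l))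
    (hL : ∀ p ∈ L, p.2.2 ∈ par l Nᶜ) :
    wprod l L = i (wprod (del l u) (spl u pull L).1) *
      ((spl u pull L).2.map fun q => gen l u ^ ((val u q).1 : ℤ) * i (val u q).2).prod := by
  induction L with
  | nil => simp [spl_nil, wprod_nil]
  | cons a L ih =>
    have ih' := ih (fun p hp => hL p (by simp [hp]))
    have ha := hpull _ (hL a (by simp))
    by_cases h : a.1 = u
    · rw [spl_u u pull a L h, wprod_cons, ih', wprod_nil, map_one, one_mul, List.map_cons,
        List.prod_cons]
      simp only [val, map_mul, ha, h, mul_assoc]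
    · rw [spl_ne u pull a L h, wprod_cons, ih', wprod_cons]
      simp only [map_mul, map_zpow, ha, hi, mul_assoc]

theorem spl_red {N : Set S} (i : EA (del l u) →* EA l) (hi : ∀ s, i (gen (del l u) s) = gen l s)
    (hpull : ∀ b ∈ par l Nᶜ, pull b ∈ par (del l u) {x | x.1 ∈ N}ᶜ ∧ i (pull b) = b)
    (L : List (Letter l)) (hL : IsRed l N L) :
    IsRed (del l u) {x | x.1 ∈ N} (spl u pull L).1 ∧
      ∀ q ∈ (spl u pull L).2, q.2.1 ∈ par (del l u) {x | x.1 ∈ N}ᶜ ∧
        IsRed (del l u) {x | x.1 ∈ N} q.2.2 := by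
  induction L with
  | nil => exact ⟨⟨by simp [spl_nil], List.isChain_nil⟩, by simp [spl_nil]⟩
  | cons a L ih =>
    rw [isRed_cons] at hL
    obtain ⟨⟨ha1, ha2⟩, hh, hL⟩ := hL
    obtain ⟨ih1, ih2⟩ := ih hL
    by_cases h : a.1 = u
    · rw [spl_u u pull a L h]
      refine ⟨⟨by simp, List.isChain_nil⟩, ?_⟩
      intro q hq
      rcases List.mem_cons.1 hq with rfl | hq
      · exact ⟨(hpull _ ha2).1, ih1⟩
      · exact ih2 q hq
    · rw [spl_ne u pull a L h]
      refine ⟨?_, ih2⟩
      rw [isRed_cons]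
      refine ⟨⟨ha1, (hpull _ ha2).1⟩, ?_, ih1⟩
      intro b hb
      rcases L with _ | ⟨b', L⟩
      · simp [spl_nil] at hb
      · by_cases h' : b'.1 = u
        · rw [spl_u u pull b' L h'] at hb
          simp at hb
        · rw [spl_ne u pull b' L h'] at hb
          have e1 : b = (⟨b'.1, h'⟩, b'.2.1, pull b'.2.2) := by simpa using hb.symm
          subst e1
          simp only
          intro h1 h2 h3
          refine hh b' (by simp) (congrArg Subtype.val h1) h2 ?_
          have h4 := h3.map i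
          rw [(hpull _ ha2).2, hi] at h4
          exact h4

theorem spl_chain {N : Set S} (i : EA (del l u) →* EA l) (B : Subgroup (EA (del l u)))
    (hB : ∀ b ∈ B, Commute (i b) (gen l u))
    (hpull : ∀ b ∈ par l Nᶜ, i (pull b) = b)
    (L : List (Letter l)) (hL : IsRed l N L) :
    (spl u pull L).2.IsChain (fun a b => a.2.2 = [] → a.1 = -b.1 → a.2.1 ∉ B) := by
  induction L with
  | nil => exact List.isChain_nil
  | cons a L ih =>
    rw [isRed_cons] at hL
    obtain ⟨⟨ha1, ha2⟩, hh, hL⟩ := hL
    have ih1 := ih hL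
    by_cases h : a.1 = u
    · rw [spl_u u pull a L h]
      refine List.isChain_cons.2 ⟨?_, ih1⟩
      intro b hb
      simp only
      rcases L with _ | ⟨b', L⟩
      · simp [spl_nil] at hb
      · by_cases h' : b'.1 = u
        · rw [spl_u u pull b' L h'] at hb ⊢
          intro _ h2 h3
          have e1 : b = (b'.2.1, pull b'.2.2, (spl u pull L).1) := by simpa using hb.symm
          subst e1
          refine hh b' (by simp) (h.trans h'.symm) h2 ?_
          have h4 := hB _ h3
          rw [hpull _ ha2, ← h] at h4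
          exact h4
        · rw [spl_ne u pull b' L h']
          intro h1
          simp at h1
    · rw [spl_ne u pull a L h]
      exact ih1

end Split

/-! ## Segments and runs -/

section Runs

variable {S : Type} {l : S → S → ℕ} {u : S} {D : Dat (EA (del l u))}

/-- A segment of a run contains a repeated sign. -/
theorem seg_defect (hD : IsDatOf l u D) {N : Set {x : S // x ≠ u}}
    (hN1 : ∀ s ∈ N, l u s ≠ 1) (hN2 : ∀ s ∉ N, l u s ≠ 2) (hH : HN (del l u) N)
    (g : D.ι → {x : S // x ≠ u}) (hg : ∀ i, D.t i = gen (del l u) (g i) ∧ l u (g i) = D.l i)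
    {i : D.ι} {ε σ : ℤˣ} {r : EA (del l u)} (h : D.Chain (fun _ => True) i ε r σ)
    (c : EA (del l u)) (M : List (Letter (del l u))) (hc : c ∈ par (del l u) Nᶜ)
    (hM : IsRed (del l u) N M) (b b' : EA (del l u)) (hb : b ∈ D.B) (hb' : b' ∈ D.B)
    (hp : c * wprod (del l u) M = b * r * b') :
    1 ≤ defects (ε :: (M.map (fun p => p.2.1) ++ [σ])) := by
  by_contra hlt
  have h0 : defects (ε :: (M.map (fun p => p.2.1) ++ [σ])) = 0 := by omega
  have hBP := par_B_le hD hN1
  obtain ⟨hc1, hc2⟩ := chainWord hD hN1 hN2 g hg h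
  have hdM : defects (M.map fun p => p.2.1) = 0 := by
    have h1 := defects_append_ge [ε] (M.map (fun p => p.2.1) ++ [σ])
    have h2 := defects_append_ge (M.map fun p => p.2.1) [σ]
    rw [List.singleton_append] at h1
    omega
  by_cases hi : g i ∈ N
  · obtain ⟨b₀, M₀, h1, h2, h3⟩ := hc1 hi
    have hj := junction hH M ((g i, ε, b₀) :: M₀) (b⁻¹ * c)
      ((par _ _).mul_mem ((par _ _).inv_mem (hBP hb)) hc) hM h1 (by simp) hdM h3 (by
        intro a ha b1 hb1
        have e1 : b1 = (g i, ε, b₀) := by simpa using hb1.symm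
        subst e1
        rcases M with _ | ⟨a', M⟩
        · simp at ha
        · have e2 : a = a' := by simpa using ha.symm
          subst e2
          simp only [List.map_cons, List.cons_append] at h0
          rw [defects_cons_cons] at h0
          have hne : ε ≠ a.2.1 := by
            intro he
            rw [if_pos he] at h0
            omega
          exact eq_neg_of_ne' hne)
    refine hj ?_
    rw [← h2, mul_assoc, hp]
    have : (b⁻¹ * (b * r * b'))⁻¹ * r = b'⁻¹ := by group
    rw [this]
    exact (par _ _).inv_mem (hBP hb')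
  · obtain ⟨h1, h2⟩ := hc2 hi
    have hrP : r ∈ par (del l u) Nᶜ := by
      rw [h1, (hg i).1]
      exact (par _ _).zpow_mem (gen_mem_parH hi) _
    have hMP : wprod (del l u) M ∈ par (del l u) Nᶜ := by
      have h3 : c * wprod (del l u) M ∈ par (del l u) Nᶜ := by
        rw [hp]
        exact (par _ _).mul_mem ((par _ _).mul_mem (hBP hb) hrP) (hBP hb')
      exact ((par _ _).mul_mem_cancel_left hc).1 h3
    have hMe : M = [] := by
      by_contra hne
      exact hH M hne hM (by rw [hdM]; exact Nat.zero_le _) hMP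
    rw [hMe, h2] at h0
    simp [defects] at h0

/-- The run lemma. -/
theorem run_not (hI1 : StI1) (hl : ∀ s t, l s t = l t s) (hD : IsDatOf l u D)
    {N : Set {x : S // x ≠ u}}
    (hN1 : ∀ s ∈ N, l u s ≠ 1) (hN2 : ∀ s ∉ N, l u s ≠ 2) (hH : HN (del l u) N)
    {φ : D.E →* D.Ah} (hφ : D.FProp φ) (Q : List (Piece l u))
    (hQ : ∀ q ∈ Q, q.2.1 ∈ par (del l u) Nᶜ ∧ IsRed (del l u) N q.2.2)
    (δ : ℤˣ) (a a' : EA (del l u)) (hr : D.HRed (Q.map (val u) ++ [(δ, a')]))
    (hd : defects (Q.flatMap (sg u) ++ [δ]) ≤ 1) :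
    D.ofG a * D.hprod (Q.map (val u) ++ [(δ, a')]) ∉ φ.range := by
  choose g hg using hD.t
  intro hmem
  rcases Q with _ | ⟨q, Q⟩
  · exact D.run_one hφ a δ a' hmem
  · rcases Q with _ | ⟨q', Q⟩
    · -- one segment
      simp only [List.map_cons, List.map_nil, List.cons_append, List.nil_append] at hr hmem
      obtain ⟨i, r, b, b', hb, hb', hp, hch1, hch2⟩ := D.run_first hφ a q.1 δ _ a' [] hr hmem
      obtain ⟨hq1, hq2⟩ := hQ q (by simp)
      have h1 := seg_defect hD hN1 hN2 hH g hg hch1 q.2.1 q.2.2 hq1 hq2 b b' hb hb' hp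
      simp only [List.flatMap_cons, List.flatMap_nil, List.append_nil, sg, List.cons_append] at hd
      have h2 : defects (q.1 :: (q.2.2.map (fun p => p.2.1) ++ [δ])) = 1 := le_antisymm hd h1
      classical
      obtain ⟨hw, -⟩ := hI1 {x : S // x ≠ u} (del l u) (fun s t => hl s t)
      obtain ⟨w, hw⟩ := hw (fun x => if x ∈ N then 1 else 0)
      have hwN : ∀ s ∈ N, w (gen (del l u) s) = ofAdd 1 := by
        intro s hs
        rw [hw, if_pos hs]
      have hwP : ∀ b ∈ par (del l u) Nᶜ, w b = 1 := by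
        intro b hb
        refine weight_par w ?_ b hb
        intro s hs
        rw [hw, if_neg hs, ofAdd_zero]
      have hwB : ∀ b ∈ D.B, w b = 1 := fun b hb => hwP b (par_B_le hD hN1 hb)
      have hwt : ∀ i, D.l i = 2 → w (D.t i) = ofAdd 1 := by
        intro i hi
        rw [(hg i).1]
        refine hwN _ ?_
        by_contra hn
        exact hN2 _ hn ((hg i).2.trans hi)
      obtain ⟨n, hn1, hn2⟩ := chain_weight w hwt hwt hwB (hch2 rfl)
      have h3 : w (q.2.1 * wprod (del l u) q.2.2) =
          ofAdd ((q.2.2.map fun p => ((p.2.1 : ℤˣ) : ℤ)).sum) := by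
        rw [map_mul, hwP _ hq1, one_mul]
        exact weight_wprod w hwN hwP q.2.2 hq2.1
      rw [hp, map_mul, map_mul, hwB b hb, hwB b' hb', one_mul, mul_one, hn1] at h3
      have h4 : n = (q.2.2.map fun p => ((p.2.1 : ℤˣ) : ℤ)).sum := ofAdd.injective h3
      obtain ⟨k, hk⟩ := defects_parity (q.2.2.map fun p => p.2.1) q.1 δ
      rw [h2, List.map_map] at hk
      have h5 : (q.2.2.map ((fun e : ℤˣ => (e : ℤ)) ∘ fun p => p.2.1)).sum = n := by
        rw [h4]; rfl
      rw [h5] at hk
      push_cast at hk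
      omega
    · -- at least two segments
      have hr' := hr
      have hmem' := hmem
      simp only [List.map_cons, List.cons_append] at hr' hmem'
      have hrest : ∃ x y rest, (Q.map (val u) ++ [(δ, a')]) = (x, y) :: rest := by
        rcases Q with _ | ⟨q1, Q⟩
        · exact ⟨δ, a', [], rfl⟩
        · exact ⟨_, _, _, rfl⟩
      obtain ⟨i, r, b, b', hb, hb', hp, hch1, -⟩ :=
        D.run_first hφ a q.1 q'.1 _ _ _ hr' hmem'
      obtain ⟨hq1, hq2⟩ := hQ q (by simp)
      have h1 := seg_defect hD hN1 hN2 hH g hg hch1 q.2.1 q.2.2 hq1 hq2 b b' hb hb' hp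
      -- last segment
      obtain ⟨Q0, q2, hQ0⟩ : ∃ Q0 q2, q' :: Q = Q0 ++ [q2] :=
        ⟨(q' :: Q).dropLast, (q' :: Q).getLast (by simp), (List.dropLast_append_getLast _).symm⟩
      have hQQ : q :: q' :: Q = (q :: Q0) ++ [q2] := by rw [hQ0]; rfl
      have hq2m : q2 ∈ q :: q' :: Q := by rw [hQQ]; simp
      obtain ⟨hq3, hq4⟩ := hQ q2 hq2m
      set T := (q :: q' :: Q).map (val u) ++ [(δ, a')] with hT
      have hTT : T = (q :: Q0).map (val u) ++ [val u q2, (δ, a')] := by
        rw [hT, hQQ]; simp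
      obtain ⟨x, rest2, hx⟩ := invL_two ((q :: Q0).map (val u)) a q2.1 δ
        (q2.2.1 * wprod (del l u) q2.2.2) a'
      have hx' : invL a T = (-δ, (q2.2.1 * wprod (del l u) q2.2.2)⁻¹) :: (-q2.1, x) :: rest2 := by
        rw [hTT]; exact hx
      have hri := D.hred_invL T a hr
      have hmi : D.ofG (lastG a T)⁻¹ * D.hprod (invL a T) ∈ φ.range := by
        rw [map_inv, D.hprod_invL]
        exact φ.range.inv_mem hmem
      rw [hx'] at hri hmi
      obtain ⟨i2, r2, b2, b2', hb2, hb2', hp2, hch2, -⟩ :=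
        D.run_first hφ _ (-δ) (-q2.1) _ _ _ hri hmi
      have h2 := seg_defect hD hN1 hN2 hH g hg hch2 (lastM q2.2.1 q2.2.2)⁻¹
        (invM q2.2.1 q2.2.2) ((par _ _).inv_mem (lastM_mem _ _ hq3 fun p hp => (hq4.1 p hp).2))
        (invM_red _ _ hq3 hq4) b2 b2' hb2 hb2' (by rw [wprod_invM]; exact hp2)
      have h3 : (-δ) :: ((invM q2.2.1 q2.2.2).map (fun p => p.2.1) ++ [-q2.1]) =
          ((q2.1 :: (q2.2.2.map (fun p => p.2.1) ++ [δ])).map fun e => -e).reverse := by
        rw [invM_signs]
        simp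
      rw [h3, defects_reverse, defects_neg] at h2
      -- count
      have h4 : (q :: q' :: Q).flatMap (sg u) ++ [δ] =
          (q.1 :: q.2.2.map (fun p => p.2.1)) ++
            q'.1 :: (q'.2.2.map (fun p => p.2.1) ++ (Q.flatMap (sg u) ++ [δ])) := by
        simp [sg]
      have h5 : q'.1 :: (q'.2.2.map (fun p => p.2.1) ++ (Q.flatMap (sg u) ++ [δ])) =
          Q0.flatMap (sg u) ++ (q2.1 :: (q2.2.2.map (fun p => p.2.1) ++ [δ])) := by
        have h6 : (q' :: Q).flatMap (sg u) ++ [δ] = (Q0 ++ [q2]).flatMap (sg u) ++ [δ] := by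
          rw [hQ0]
        simpa [sg] using h6
      rw [h4, defects_mid, h5] at hd
      have h7 := defects_append_ge (Q0.flatMap (sg u))
        (q2.1 :: (q2.2.2.map (fun p => p.2.1) ++ [δ]))
      have h8 : (q.1 :: q.2.2.map (fun p => p.2.1)) ++ [q'.1] =
          q.1 :: (q.2.2.map (fun p => p.2.1) ++ [q'.1]) := rfl
      rw [h8] at hd
      omega

end Runs

end Pool.Agent.Lib.MP_e6f638_al
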