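import Pool.Agent.Lib.MP_e6f638_al.Stmts

/-!
# Tits alternative for even Artin groups: the induction
-/

set_option autoImplicit false

namespace Pool.Agent.Lib.MP_e6f638_al

open Multiplicative

namespace I4

lemma closure_gen {S : Type} (l : S → S → ℕ) : Subgroup.closure (Set.range (gen l)) = ⊤ :=
  PresentedGroup.closure_range_of _

lemma rel {S : Type} (l : S → S → ℕ) (s t : S) :
    (gen l s * gen l t) ^ l s t = (gen l t * gen l s) ^ l s t := by
  have h1 : PresentedGroup.mk (rels l) ((FreeGroup.of s * FreeGroup.of t) ^ l s t *
      ((FreeGroup.of t * FreeGroup.of s) ^ l s t)⁻¹) = 1 :=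
    PresentedGroup.one_of_mem ⟨s, t, rfl⟩
  rw [map_mul, map_inv, map_pow, map_pow, map_mul, map_mul, mul_inv_eq_one] at h1
  exact h1

end I4

open I4 in
/-- The main theorem for even Artin groups. -/
theorem stI4 (hA : StA) (hG1 : StG1) (hI1 : StI1) (hI2 : StI2) (hI3 : StI3) : StI4 := by
  obtain ⟨hA1, hA2, hA3, -, hA5⟩ := hA
  have key : ∀ (n : ℕ) (S : Type) [Finite S] (l : S → S → ℕ), Nat.card S = n →
      (∀ s t, l s t = l t s) →
      (∀ s t v : S, s ≠ t → s ≠ v → t ≠ v → ¬ (l s t = 2 ∧ l s v = 2 ∧ l t v = 1)) →
      TA (4 * n) (EA l) := by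
    intro n
    induction n with
    | zero =>
      intro S _ l hS _ _
      have hE : IsEmpty S := Finite.card_eq_zero_iff.1 hS
      refine hA5 _ ⟨fun a b => ?_⟩
      have h1 : (⊥ : Subgroup (EA l)) = ⊤ := by
        rw [← closure_gen l, Set.range_eq_empty, Subgroup.closure_empty]
      have ha : a ∈ (⊥ : Subgroup (EA l)) := by rw [h1]; trivial
      have hb : b ∈ (⊥ : Subgroup (EA l)) := by rw [h1]; trivial
      rw [Subgroup.mem_bot] at ha hb
      rw [ha, hb]
    | succ n ih =>
      intro S _ l hS hsymm hno
      have hne : Nonempty S := (Finite.card_pos_iff).1 (by omega)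
      obtain ⟨u⟩ := hne
      have hcard : Nat.card {x : S // x ≠ u} = n := by
        classical
        have := Fintype.ofFinite S
        have h1 := Set.card_ne_eq u
        rw [Nat.card_eq_fintype_card] at hS ⊢
        have h2 : Fintype.card {x : S // x ≠ u} = Fintype.card S - 1 := by
          rw [← h1]
          exact Fintype.card_congr (Equiv.refl _)
        omega
      have hsymm' : ∀ a b, del l u a b = del l u b a := fun a b => hsymm a b
      have hno' : ∀ s t v : {x : S // x ≠ u}, s ≠ t → s ≠ v → t ≠ v →
          ¬ (del l u s t = 2 ∧ del l u s v = 2 ∧ del l u t v = 1) := by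
        intro s t v h1 h2 h3
        exact hno s t v (fun h => h1 (Subtype.ext h)) (fun h => h2 (Subtype.ext h))
          (fun h => h3 (Subtype.ext h))
      have hih := ih {x : S // x ≠ u} (del l u) hcard hsymm' hno'
      by_cases hex : ∃ s : {x : S // x ≠ u}, l u s ≠ 1
      · obtain ⟨D, hD, i, _, _, hext⟩ := hI2 S l hsymm u hex
        have hW := hI3 S l hsymm hno u D hD
        exact hG1 _ D hW _ i _ hext _ hih
      · -- the generator `u` is central
        push Not at hex
        classical
        obtain ⟨ρ, hρ⟩ := (hI1 S l hsymm).2.2.1 (EA (del l u))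
          (fun s => if h : s ≠ u then gen (del l u) ⟨s, h⟩ else 1) (by
            intro s t
            by_cases hs : s ≠ u
            · by_cases ht : t ≠ u
              · simp only [dif_pos hs, dif_pos ht]
                exact rel (del l u) ⟨s, hs⟩ ⟨t, ht⟩
              · simp only [dif_neg ht, mul_one, one_mul]
            · simp only [dif_neg hs, mul_one, one_mul])
        obtain ⟨j, hj⟩ := (hI1 _ (del l u) hsymm').2.2.1 (EA l) (fun s => gen l s)
          (fun s t => rel l s t)
        obtain ⟨w, hw⟩ := (hI1 S l hsymm).1 (fun s => if s = u then 1 else 0)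
        have hcomm : ∀ a : EA l, Commute a (gen l u) := by
          have h1 : (⊤ : Subgroup (EA l)) ≤ Subgroup.centralizer {gen l u} := by
            rw [← closure_gen l, Subgroup.closure_le]
            rintro _ ⟨s, rfl⟩
            rw [SetLike.mem_coe, Subgroup.mem_centralizer_singleton_iff]
            by_cases hs : s = u
            · subst hs
              rfl
            · have h2 := rel l u s
              rw [hex ⟨s, hs⟩, pow_one, pow_one] at h2
              exact h2.symm
          intro a
          have h2 := h1 (Subgroup.mem_top a)
          rw [Subgroup.mem_centralizer_singleton_iff] at h2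
          exact h2
        have hdec : ∀ g : EA l, g = j (ρ g) * gen l u ^ (toAdd (w g)) := by
          intro g
          have hg : g ∈ Subgroup.closure (Set.range (gen l)) := by
            rw [closure_gen l]
            trivial
          induction hg using Subgroup.closure_induction with
          | mem x hx =>
            obtain ⟨s, rfl⟩ := hx
            rw [hρ, hw]
            by_cases hs : s = u
            · subst hs
              simp
            · simp only [dif_pos hs, if_neg hs, hj]
              simp
          | one => simp
          | mul a b _ _ iha ihb =>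
            rw [map_mul, map_mul, map_mul, toAdd_mul, zpow_add]
            have h3 : Commute (gen l u ^ (toAdd (w a))) (j (ρ b)) :=
              ((hcomm (j (ρ b))).symm.zpow_left _)
            calc a * b = (j (ρ a) * gen l u ^ (toAdd (w a))) *
                (j (ρ b) * gen l u ^ (toAdd (w b))) := by rw [← iha, ← ihb]
              _ = j (ρ a) * (gen l u ^ (toAdd (w a)) * j (ρ b)) * gen l u ^ (toAdd (w b)) := by
                group
              _ = j (ρ a) * (j (ρ b) * gen l u ^ (toAdd (w a))) * gen l u ^ (toAdd (w b)) := by
                rw [h3.eq]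
              _ = _ := by group
          | inv a _ iha =>
            rw [map_inv, map_inv, map_inv, toAdd_inv, zpow_neg]
            have h3 : Commute (gen l u ^ (toAdd (w a))) (j (ρ a)) :=
              ((hcomm (j (ρ a))).symm.zpow_left _)
            calc a⁻¹ = (j (ρ a) * gen l u ^ (toAdd (w a)))⁻¹ := by rw [← iha]
              _ = (gen l u ^ (toAdd (w a)) * j (ρ a))⁻¹ := by rw [h3.eq]
              _ = _ := by rw [mul_inv_rev]
        have hker : TA (4 * n) w.ker := by
          refine hA1 _ _ (ρ.comp w.ker.subtype) _ ?_ hih
          rw [injective_iff_map_eq_one]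
          rintro ⟨a, ha⟩ h1
          rw [MonoidHom.mem_ker] at ha
          have h2 : ρ a = 1 := h1
          have h3 := hdec a
          rw [h2, ha, map_one, toAdd_one, zpow_zero, mul_one] at h3
          exact Subtype.ext h3
        have h4 := hA3 _ _ w _ hker
        exact hA2 _ _ _ (by omega) h4
  intro S _ l hsymm hno
  exact key _ S l rfl hsymm hno

end Pool.Agent.Lib.MP_e6f638_al
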