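import Pool.Agent.Lib.MP_e6f638_al.Fin
import Pool.Agent.Lib.MP_e6f638_al.A
import Pool.Agent.Lib.MP_e6f638_al.B1
import Pool.Agent.Lib.MP_e6f638_al.B2
import Pool.Agent.Lib.MP_e6f638_al.C
import Pool.Agent.Lib.MP_e6f638_al.D
import Pool.Agent.Lib.MP_e6f638_al.D1
import Pool.Agent.Lib.MP_e6f638_al.D2
import Pool.Agent.Lib.MP_e6f638_al.E
import Pool.Agent.Lib.MP_e6f638_al.F
import Pool.Agent.Lib.MP_e6f638_al.G1
import Pool.Agent.Lib.MP_e6f638_al.G2
import Pool.Agent.Lib.MP_e6f638_al.H
import Pool.Agent.Lib.MP_e6f638_al.I1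
import Pool.Agent.Lib.MP_e6f638_al.I2
import Pool.Agent.Lib.MP_e6f638_al.I3
import Pool.Agent.Lib.MP_e6f638_al.I4

/-!
# Assembly
-/

set_option autoImplicit false

namespace Pool.Agent.Lib.MP_e6f638_al

/-- `TA` for groups acting on trees. -/
theorem stD_all : StD := stD stA stB2 (stD2 stB1 stC stD1)

/-- `TA` for HNN extensions. -/
theorem stE_all : StE := stE stA stD_all

/-- `TA` for the extensions `⟨G, u⟩`. -/
theorem stG1_all : StG1 := stG1 stA stE_all stF

/-- Alternating words. -/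
theorem stH_all : StH := stH (stG2 stF) stI1 stI2

/-- `TA` for even Artin groups without triples with labels `4, 4, 2`. -/
theorem stI4_all : StI4 := stI4 stA stG1_all stI1 stI2 (stI3 stI1 stH_all)

/-- The main theorem. -/
theorem stFin_all : StFin := stFin stA stI4_all

end Pool.Agent.Lib.MP_e6f638_al
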