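import Mathlib

/-!
# Tits alternative for even Artin groups: definitions and statements of the modules

The splitting: `A_S = HNN (Q; E, tau)` where `Q` is the kernel of a map of
`HNN (A_(S - u); A_C, id)` onto the integers.
-/

set_option autoImplicit false

namespace Pool.Agent.Lib.MP_e6f638_al

open Multiplicative

/-! ## The class `TA d` -/

/-- The subgroup `H` contains a free group of rank two. -/
def HasF2 {G : Type*} [Group G] (H : Subgroup G) : Prop :=
  ∃ f : FreeGroup (Fin 2) →* G, Function.Injective f ∧ f.range ≤ H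

/-- Every subgroup without free subgroups of rank two is solvable of derived length at most `d`. -/
def TA (d : ℕ) (G : Type*) [Group G] : Prop :=
  ∀ H : Subgroup G, ¬ HasF2 H → derivedSeries H d = ⊥

/-- Module A. Closure properties of `TA`. -/
def StA : Prop :=
  (∀ (G K : Type) [Group G] [Group K] (f : G →* K) (d : ℕ), Function.Injective f → TA d K →
    TA d G) ∧
  (∀ (G : Type) [Group G] (d e : ℕ), d ≤ e → TA d G → TA e G) ∧
  (∀ (G K : Type) [Group G] [CommGroup K] (f : G →* K) (d : ℕ), TA d f.ker → TA (d + 1) G) ∧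
  (∀ (G : Type) [Group G] (d : ℕ), (∀ K : Subgroup G, K.FG → derivedSeries K d = ⊥) →
    derivedSeries G d = ⊥) ∧
  (∀ (G : Type) [Group G], Subsingleton G → TA 0 G)

/-! ## Trees -/

/-- `G` acts on the tree `T` without inversions. -/
structure TreeAct (G : Type) [Group G] (V : Type) [MulAction G V] (T : SimpleGraph V) :
    Prop where
  tree : T.IsTree
  adj : ∀ (g : G) (u v : V), T.Adj u v → T.Adj (g • u) (g • v)
  inv : ∀ (g : G) (u v : V), T.Adj u v → g • u = v → g • v ≠ u

/-- `γ` is an axis of `g` with translation length `n`. -/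
def IsAxis {G : Type} [Group G] {V : Type} [MulAction G V] (T : SimpleGraph V) (g : G)
    (γ : ℤ → V) (n : ℤ) : Prop :=
  0 < n ∧ (∀ i j : ℤ, (T.dist (γ i) (γ j) : ℤ) = |i - j|) ∧ ∀ i, g • γ i = γ (i + n)

/-- `R h δ ε`: `h` maps the end `δ` of the line `γ` to the end `ε`. -/
def R {G : Type} [Group G] {V : Type} [MulAction G V] (γ : ℤ → V) (h : G) (δ ε : ℤˣ) : Prop :=
  ∃ k N : ℤ, ∀ i, N ≤ i → h • γ (δ * i) = γ (ε * (i + k))

/-- Module B1. An element without fixed vertex has an axis. -/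
def StB1 : Prop :=
  ∀ (G : Type) [Group G] (V : Type) [MulAction G V] (T : SimpleGraph V), TreeAct G V T →
    ∀ g : G, (∀ v : V, g • v ≠ v) → ∃ γ n, IsAxis T g γ n

/-- Module B2. Serre's lemma: a finitely generated group all of whose elements have fixed
vertices has a fixed vertex. -/
def StB2 : Prop :=
  ∀ (G : Type) [Group G] (V : Type) [MulAction G V] (T : SimpleGraph V), TreeAct G V T →
    (∀ g : G, ∃ v : V, g • v = v) → Group.FG G → ∃ v : V, ∀ g : G, g • v = v

/-- Module C. If there is no free subgroup of rank two then every element `h` maps an end of the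
axis of `g` to an end of the axis. -/
def StC : Prop :=
  ∀ (G : Type) [Group G] (V : Type) [MulAction G V] (T : SimpleGraph V), TreeAct G V T →
    ¬ HasF2 (⊤ : Subgroup G) → ∀ (g : G) (γ : ℤ → V) (n : ℤ), IsAxis T g γ n →
      ∀ h : G, ∃ δ ε : ℤˣ, R γ h δ ε

/-- Module D1. If a power of `g` fixes the end `h δ` then this is an end of the axis of `g`. -/
def StD1 : Prop :=
  ∀ (G : Type) [Group G] (V : Type) [MulAction G V] (T : SimpleGraph V), TreeAct G V T →
    ∀ (g : G) (γ : ℤ → V) (n : ℤ), IsAxis T g γ n →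
      ∀ (h : G) (δ : ℤˣ) (j : ℤ), j ≠ 0 → R γ (h⁻¹ * g ^ j * h) δ δ → ∃ ε, R γ h δ ε

/-- Module D2. A group without free subgroups of rank two acting on a tree: the elements of the
second derived group have fixed vertices. -/
def StD2 : Prop :=
  ∀ (G : Type) [Group G] (V : Type) [MulAction G V] (T : SimpleGraph V), TreeAct G V T →
    ¬ HasF2 (⊤ : Subgroup G) → ∀ g ∈ derivedSeries G 2, ∃ v : V, g • v = v

/-- Module D. `TA` and trees. -/
def StD : Prop :=
  ∀ (G : Type) [Group G] (V : Type) [MulAction G V] (T : SimpleGraph V), TreeAct G V T →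
    ∀ d, (∀ v : V, TA d (MulAction.stabilizer G v)) → TA (d + 2) G

/-- Module E1. The Bass-Serre tree of an HNN extension. -/
def StE1 : Prop :=
  ∀ (G : Type) [Group G] (A B : Subgroup G) (φ : A ≃* B),
    ∃ (V : Type) (_ : MulAction (HNNExtension G A B φ) V) (T : SimpleGraph V),
      TreeAct (HNNExtension G A B φ) V T ∧
      ∀ v : V, ∃ x : HNNExtension G A B φ,
        ∀ g ∈ MulAction.stabilizer (HNNExtension G A B φ) v, ∃ a : G,
          g = x * HNNExtension.of a * x⁻¹

/-- Module E. `TA` and HNN extensions. -/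
def StE : Prop :=
  ∀ (G : Type) [Group G] (A B : Subgroup G) (φ : A ≃* B) (d : ℕ), TA d G →
    TA (d + 2) (HNNExtension G A B φ)

/-! ## The splitting -/

/-- The data of a splitting over the group `G`. -/
structure Dat (G : Type) [Group G] where
  B : Subgroup G
  ι : Type
  t : ι → G
  l : ι → ℕ
  h : G →* Multiplicative ℤ
  t₀ : G
  two_le : ∀ i, 2 ≤ l i
  h_t : ∀ i, h (t i) = ofAdd 1
  h_t₀ : h t₀ = ofAdd 1
  h_B : ∀ b ∈ B, h b = 1

namespace Dat

variable {G : Type} [Group G] (D : Dat G)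

/-- Chains of blocks: `Chain P i ε r σ`, `i` is the first block, `ε` its sign, `r` the element
following the first letter, `σ` the sign of the next letter. -/
inductive Chain (P : D.ι → Prop) : D.ι → ℤˣ → G → ℤˣ → Prop
  | base (i : D.ι) (ε : ℤˣ) : P i → Chain P i ε (D.t i ^ (ε : ℤ)) ε
  | step (i j : D.ι) (ε : ℤˣ) (b r : G) (σ : ℤˣ) : D.l i = 2 → b ∈ D.B →
      (i = j → ¬ Commute b (D.t i)) → Chain P j (-ε) r σ →
      Chain P i ε (D.t i ^ (ε : ℤ) * b * r) σ

/-- Condition (W). -/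
def W : Prop :=
  ∀ (i j : D.ι) (ε : ℤˣ) (b r : G), b ∈ D.B → (i = j → ¬ Commute b (D.t i)) →
    D.Chain (fun _ => True) j (-ε) r (-ε) → D.t i ^ (ε : ℤ) * b * r ∉ D.B

/-- The HNN extension of `G` whose stable letter commutes with `B`. -/
abbrev Ah : Type := HNNExtension G D.B D.B (MulEquiv.refl D.B)

/-- The stable letter. -/
noncomputable abbrev u : D.Ah := HNNExtension.t

/-- `G` in `Ah`. -/
noncomputable abbrev ofG : G →* D.Ah := HNNExtension.of

/-- The height of `Ah`. -/
noncomputable def hh : D.Ah →* Multiplicative ℤ :=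
  HNNExtension.lift D.h (ofAdd (-1)) (fun a => by
    rw [MulEquiv.refl_apply, D.h_B a a.2, mul_one, one_mul])

/-- The relators of `E`. -/
def rE : Set (Monoid.Coprod D.h.ker (FreeGroup D.ι)) :=
  {r | ∃ (i : D.ι) (b : D.h.ker), (b : G) ∈ D.B ∧ Commute (b : G) (D.t i) ∧
    r = Monoid.Coprod.inr (FreeGroup.of i) * Monoid.Coprod.inl b *
      (Monoid.Coprod.inr (FreeGroup.of i))⁻¹ * (Monoid.Coprod.inl b)⁻¹}

/-- The group `E`: generated by the kernel of `h` and letters `z i` commuting with the elements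
of `B` commuting with `t i`. -/
abbrev E : Type := Monoid.Coprod D.h.ker (FreeGroup D.ι) ⧸ Subgroup.normalClosure D.rE

/-- The kernel of `h` in `E`. -/
def inE : D.h.ker →* D.E :=
  (QuotientGroup.mk' (Subgroup.normalClosure D.rE)).comp Monoid.Coprod.inl

/-- The letters of `E`. -/
def z (i : D.ι) : D.E :=
  QuotientGroup.mk' (Subgroup.normalClosure D.rE) (Monoid.Coprod.inr (FreeGroup.of i))

/-- `φ` is the natural map of `E` to `Ah`. -/
def IsPhi (φ : D.E →* D.Ah) : Prop :=
  (∀ a : D.h.ker, φ (D.inE a) = D.ofG a) ∧ ∀ i, φ (D.z i) = (D.ofG (D.t i) * D.u) ^ D.l i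

/-- The letter `x = t₀ u`. -/
noncomputable def x : D.Ah := D.ofG D.t₀ * D.u

/-- The product of a list of letters `x` and elements of `G`, in `Ah`. -/
noncomputable def xw (L : List (ℤˣ × G)) : D.Ah :=
  (L.map fun p => D.x ^ (p.1 : ℤ) * D.ofG p.2).prod

/-- `A` is `⟨G, u | u commutes with B, (t i u) ^ l i commutes with t i⟩`. -/
structure IsExt (A : Type) [Group A] (i : G →* A) (v : A) : Prop where
  comm : ∀ b ∈ D.B, i b * v = v * i b
  rel : ∀ k, (i (D.t k) * v) ^ D.l k * i (D.t k) = i (D.t k) * (i (D.t k) * v) ^ D.l k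
  lift : ∀ (K : Type) [Group K] (f : G →* K) (w : K), (∀ b ∈ D.B, f b * w = w * f b) →
    (∀ k, (f (D.t k) * w) ^ D.l k * f (D.t k) = f (D.t k) * (f (D.t k) * w) ^ D.l k) →
    ∃ F : A →* K, F.comp i = f ∧ F v = w
  gen : Subgroup.closure (Set.range i ∪ {v}) = ⊤

end Dat

/-- Module F. Words of `E` in `Ah`. -/
def StF : Prop :=
  ∀ (G : Type) [Group G] (D : Dat G), D.W → ∃ φ : D.E →* D.Ah, D.IsPhi φ ∧
    Function.Injective φ ∧
    (∀ e : D.E, φ e ∈ D.ofG.range → ∃ a : D.h.ker, φ e = D.ofG a) ∧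
    ∀ e : D.E, φ e ∉ D.ofG.range →
      ∃ w : HNNExtension.NormalWord.ReducedWord G D.B D.B, w.prod (MulEquiv.refl D.B) = φ e ∧
        ∃ (i : D.ι) (ε σ : ℤˣ) (r r' : G) (rest : List (ℤˣ × G)),
          w.toList = (ε, r) :: (σ, r') :: rest ∧ D.Chain (fun _ => True) i ε r σ ∧
          (rest = [] → D.Chain (fun i => D.l i = 2) i ε r σ)

/-- Module G1. `TA` for the extension. -/
def StG1 : Prop :=
  ∀ (G : Type) [Group G] (D : Dat G), D.W → ∀ (A : Type) [Group A] (i : G →* A) (v : A),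
    D.IsExt A i v → ∀ d, TA d G → TA (d + 4) A

/-- Module G2. Words which are not in `G`. -/
def StG2 : Prop :=
  ∀ (G : Type) [Group G] (D : Dat G), D.W → ∀ (A : Type) [Group A] (i : G →* A) (v : A),
    D.IsExt A i v → ∀ φ : D.E →* D.Ah, D.IsPhi φ → ∀ L : List (ℤˣ × G), L ≠ [] →
      (∀ (L₁ R₀ : List (ℤˣ × G)) (δ : ℤˣ) (κ : G) (L₂ : List (ℤˣ × G)),
        L = L₁ ++ R₀ ++ (δ, κ) :: L₂ → (∀ p ∈ R₀, D.h p.2 = 1) →
        D.xw R₀ * D.x ^ (δ : ℤ) ∉ φ.range) →
      (L.map fun p => (i D.t₀ * v) ^ (p.1 : ℤ) * i p.2).prod ∉ i.range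

/-! ## Even Artin groups -/

/-- The relators of the even Artin group with half labels `l` (`0` means infinity). -/
def rels {S : Type} (l : S → S → ℕ) : Set (FreeGroup S) :=
  {r | ∃ s t : S, r = (FreeGroup.of s * FreeGroup.of t) ^ l s t *
    ((FreeGroup.of t * FreeGroup.of s) ^ l s t)⁻¹}

/-- The even Artin group with half labels `l`. -/
abbrev EA {S : Type} (l : S → S → ℕ) : Type := PresentedGroup (rels l)

/-- The generators. -/
def gen {S : Type} (l : S → S → ℕ) (s : S) : EA l := PresentedGroup.of s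

/-- The standard subgroup generated by `X`. -/
def par {S : Type} (l : S → S → ℕ) (X : Set S) : Subgroup (EA l) :=
  Subgroup.closure (gen l '' X)

/-- The half labels without the generator `u`. -/
def del {S : Type} (l : S → S → ℕ) (u : S) : {x : S // x ≠ u} → {x : S // x ≠ u} → ℕ :=
  fun s t => l s t

/-- Module I1. Homomorphisms defined on generators, retractions, weights. -/
def StI1 : Prop :=
  ∀ (S : Type) (l : S → S → ℕ), (∀ s t, l s t = l t s) →
    (∀ (f : S → ℤ), ∃ w : EA l →* Multiplicative ℤ, ∀ s, w (gen l s) = ofAdd (f s)) ∧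
    (∀ X : Set S, ∃ ρ : EA l →* EA l, (∀ s ∈ X, ρ (gen l s) = gen l s) ∧
      (∀ s ∉ X, ρ (gen l s) = 1)) ∧
    (∀ (K : Type) [Group K] (f : S → K), (∀ s t, (f s * f t) ^ l s t = (f t * f s) ^ l s t) →
      ∃ F : EA l →* K, ∀ s, F (gen l s) = f s) ∧
    (∀ X : Set S, ∃ j : EA (fun a b : X => l a b) →* EA l,
      (∀ a : X, j (gen _ a) = gen l a) ∧ Function.Injective j)

/-- The data of the splitting at `u`: `G = EA (del l u)`. -/
structure IsDatOf {S : Type} (l : S → S → ℕ) (u : S) (D : Dat (EA (del l u))) : Prop where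
  B : D.B = par (del l u) {c | l u c = 1}
  h : ∀ s, D.h (gen (del l u) s) = if l u s = 1 then 1 else ofAdd 1
  t : ∀ i, ∃ s, D.t i = gen (del l u) s ∧ l u s = D.l i
  surj : ∀ s : {x : S // x ≠ u}, 2 ≤ l u s → ∃ i, D.t i = gen (del l u) s
  inj : Function.Injective D.t
  t₀ : ∃ s, D.t₀ = gen (del l u) s ∧ l u s ≠ 1

/-- Module I2. The data of the splitting at `u` exist and `EA l` is the extension. -/
def StI2 : Prop :=
  ∀ (S : Type) (l : S → S → ℕ), (∀ s t, l s t = l t s) → ∀ (u : S),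
    (∃ s : {x : S // x ≠ u}, l u s ≠ 1) → ∃ D : Dat (EA (del l u)), IsDatOf l u D ∧
      ∃ i : EA (del l u) →* EA l, (∀ s, i (gen (del l u) s) = gen l s) ∧
        Function.Injective i ∧ D.IsExt (EA l) i (gen l u)

/-- The number of repeated signs. -/
def defects : List ℤˣ → ℕ
  | [] => 0
  | [_] => 0
  | a :: b :: L => (if a = b then 1 else 0) + defects (b :: L)

/-- A letter: generator, sign, coefficient behind it. -/
abbrev Letter {S : Type} (l : S → S → ℕ) : Type := S × ℤˣ × EA l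

/-- The product of a word. -/
def wprod {S : Type} (l : S → S → ℕ) (L : List (Letter l)) : EA l :=
  (L.map fun p => gen l p.1 ^ (p.2.1 : ℤ) * p.2.2).prod

/-- Reduced words over the standard subgroup of the complement of `N`, letters in `N`. -/
def IsRed {S : Type} (l : S → S → ℕ) (N : Set S) (L : List (Letter l)) : Prop :=
  (∀ p ∈ L, p.1 ∈ N ∧ p.2.2 ∈ par l Nᶜ) ∧
  L.IsChain (fun a b => a.1 = b.1 → a.2.1 = -b.2.1 → ¬ Commute a.2.2 (gen l a.1))

/-- Module H. Alternating words (with at most one repeated sign) are not in the standard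
subgroup. -/
def StH : Prop :=
  ∀ (S : Type) [Finite S] (l : S → S → ℕ), (∀ s t, l s t = l t s) →
    ∀ N : Set S, (∀ s ∈ N, ∀ t ∈ N, s ≠ t → l s t ≠ 1) → (∀ s ∈ N, ∀ c ∉ N, l s c ≠ 2) →
      ∀ L : List (Letter l), L ≠ [] → IsRed l N L → defects (L.map fun p => p.2.1) ≤ 1 →
        wprod l L ∉ par l Nᶜ

/-- Module I3. Condition (W) for the splitting at `u`. -/
def StI3 : Prop :=
  ∀ (S : Type) [Finite S] (l : S → S → ℕ), (∀ s t, l s t = l t s) →
    (∀ s t v : S, s ≠ t → s ≠ v → t ≠ v → ¬ (l s t = 2 ∧ l s v = 2 ∧ l t v = 1)) →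
    ∀ (u : S) (D : Dat (EA (del l u))), IsDatOf l u D → D.W

/-- Module I4. The main theorem for even Artin groups. -/
def StI4 : Prop :=
  ∀ (S : Type) [Finite S] (l : S → S → ℕ), (∀ s t, l s t = l t s) →
    (∀ s t v : S, s ≠ t → s ≠ v → t ≠ v → ¬ (l s t = 2 ∧ l s v = 2 ∧ l t v = 1)) →
    TA (4 * Nat.card S) (EA l)

end Pool.Agent.Lib.MP_e6f638_al
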